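import Pool.Agent.Helper89.SE.Defs

set_option autoImplicit false

/-! General uniformity: the basic lemmas. Everything else uses only these.
`one`: `x` in the edge `e` at `v`, `x'` in the edge `g ≠ e` at `v` (because `C v x x' = 0`); the four
terms count different cross pairs of `e.erase v` and `g.erase v`. `sum_edges`: for `A x y = 1` there is
exactly one edge. -/

namespace Pool.Agent.Helper89.SE

open Finset Pool.Agent.Helper18.SF

variable {V : Type} [DecidableEq V] {r k0 : ℕ} (S : SysE r k0 V)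

theorem SysE.h01 (x y : V) : S.A x y = 0 ∨ S.A x y = 1 := by
  unfold SysE.A
  split_ifs
  · exact Or.inr rfl
  · exact Or.inl rfl

theorem SysE.symm (x y : V) : S.A x y = S.A y x := by
  unfold SysE.A
  congr 1
  apply propext
  constructor
  · rintro ⟨h, e, he, h1, h2⟩
    exact ⟨h.symm, e, he, h2, h1⟩
  · rintro ⟨h, e, he, h1, h2⟩
    exact ⟨h.symm, e, he, h2, h1⟩

theorem SysE.irr (x : V) : S.A x x = 0 := by
  unfold SysE.A
  rw [if_neg]
  rintro ⟨h, -⟩
  exact h rfl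

theorem SysE.A_nonneg (x y : V) : 0 ≤ S.A x y := by
  rcases S.h01 x y with h | h <;> rw [h]
  norm_num

theorem SysE.A_le_one (x y : V) : S.A x y ≤ 1 := by
  rcases S.h01 x y with h | h <;> rw [h]
  norm_num

theorem SysE.C_h01 (x y u : V) : S.C x y u = 0 ∨ S.C x y u = 1 := by
  unfold SysE.C
  split_ifs
  · exact Or.inr rfl
  · exact Or.inl rfl

theorem SysE.C_nonneg (x y u : V) : 0 ≤ S.C x y u := by
  rcases S.C_h01 x y u with h | h <;> rw [h]
  norm_num

theorem SysE.C_swap (x y u : V) : S.C x y u = S.C y x u := by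
  unfold SysE.C
  congr 1
  apply propext
  constructor
  · rintro ⟨h1, h2, h3, e, he, h4, h5, h6⟩
    exact ⟨h1.symm, h3, h2, e, he, h5, h4, h6⟩
  · rintro ⟨h1, h2, h3, e, he, h4, h5, h6⟩
    exact ⟨h1.symm, h3, h2, e, he, h5, h4, h6⟩

theorem SysE.C_swap' (x y u : V) : S.C x y u = S.C x u y := by
  unfold SysE.C
  congr 1
  apply propext
  constructor
  · rintro ⟨h1, h2, h3, e, he, h4, h5, h6⟩
    exact ⟨h2, h1, h3.symm, e, he, h4, h6, h5⟩
  · rintro ⟨h1, h2, h3, e, he, h4, h5, h6⟩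
    exact ⟨h2, h1, h3.symm, e, he, h4, h6, h5⟩

theorem SysE.C_le_A (x y u : V) : S.C x y u ≤ S.A x y := by
  unfold SysE.C SysE.A
  split_ifs with h1 h2 h2
  · exact le_rfl
  · exact absurd ⟨h1.1, h1.2.2.2.imp fun e he => ⟨he.1, he.2.1, he.2.2.1⟩⟩ h2
  · norm_num
  · exact le_rfl

theorem SysE.A_mul_C (x y u : V) : S.A x y * S.C x y u = S.C x y u := by
  rcases S.h01 x y with h | h
  · have h1 := S.C_le_A x y u
    rw [h] at h1
    have h2 := le_antisymm h1 (S.C_nonneg x y u)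
    rw [h2, mul_zero]
  · rw [h, one_mul]

theorem SysE.C_self (x y : V) : S.C x y y = 0 := by
  unfold SysE.C
  rw [if_neg]
  rintro ⟨-, -, h, -⟩
  exact h rfl

private theorem edge_unique {e g : Finset V} (he : e ∈ S.H) (hg : g ∈ S.H) {x y : V} (hxy : x ≠ y)
    (hx : x ∈ e) (hy : y ∈ e) (hx' : x ∈ g) (hy' : y ∈ g) : e = g := by
  by_contra h
  have h1 := S.lin e he g hg h
  have h2 : ({x, y} : Finset V) ⊆ e ∩ g := by
    intro z hz
    rw [Finset.mem_insert, Finset.mem_singleton] at hz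
    rcases hz with rfl | rfl
    · exact Finset.mem_inter.2 ⟨hx, hx'⟩
    · exact Finset.mem_inter.2 ⟨hy, hy'⟩
  have h3 := Finset.card_le_card h2
  rw [Finset.card_pair hxy] at h3
  omega

private theorem C_eq {e : Finset V} (he : e ∈ S.H) {x y : V} (hxy : x ≠ y) (hx : x ∈ e)
    (hy : y ∈ e) (u : V) : S.C x y u = if u ∈ (e.erase x).erase y then 1 else 0 := by
  unfold SysE.C
  congr 1
  apply propext
  rw [Finset.mem_erase, Finset.mem_erase]
  constructor
  · rintro ⟨h1, h2, h3, g, hg, h4, h5, h6⟩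
    have := edge_unique S he hg hxy hx hy h4 h5
    subst this
    exact ⟨h3.symm, h2.symm, h6⟩
  · rintro ⟨h1, h2, h3⟩
    exact ⟨hxy, h2.symm, h1.symm, e, he, hx, hy, h3⟩

private theorem exists_edge {x y : V} (h : S.A x y = 1) : x ≠ y ∧ ∃ e ∈ S.H, x ∈ e ∧ y ∈ e := by
  unfold SysE.A at h
  by_contra hc
  rw [if_neg hc] at h
  norm_num at h

private theorem sumC_mul [Fintype V] {e : Finset V} (he : e ∈ S.H) {x y : V} (hxy : x ≠ y)
    (hx : x ∈ e) (hy : y ∈ e) (f : V → ℝ) :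
    ∑ u, S.C x y u * f u = ∑ u ∈ (e.erase x).erase y, f u := by
  rw [← Finset.sum_filter_add_sum_filter_not Finset.univ (fun u => u ∈ (e.erase x).erase y)]
  have h1 : ∑ u ∈ Finset.univ.filter (fun u => ¬ u ∈ (e.erase x).erase y), S.C x y u * f u = 0 := by
    refine Finset.sum_eq_zero fun u hu => ?_
    rw [C_eq S he hxy hx hy, if_neg (Finset.mem_filter.1 hu).2, zero_mul]
  rw [h1, add_zero]
  have h2 : Finset.univ.filter (fun u => u ∈ (e.erase x).erase y) = (e.erase x).erase y := by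
    ext u
    simp
  rw [h2]
  refine Finset.sum_congr rfl fun u hu => ?_
  rw [C_eq S he hxy hx hy, if_pos hu, one_mul]

theorem SysE.sum_C [Fintype V] (x y : V) : ∑ u, S.C x y u = ((r : ℝ) - 2) * S.A x y := by
  rcases S.h01 x y with h | h
  · rw [h, mul_zero]
    refine Finset.sum_eq_zero fun u _ => ?_
    have h1 := S.C_le_A x y u
    rw [h] at h1
    exact le_antisymm h1 (S.C_nonneg x y u)
  · obtain ⟨hxy, e, he, hx, hy⟩ := exists_edge S h
    have h1 := sumC_mul S he hxy hx hy (fun _ => 1)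
    simp only [mul_one] at h1
    rw [h1, Finset.sum_const, nsmul_eq_mul, mul_one, h, mul_one,
      Finset.card_erase_of_mem (Finset.mem_erase.2 ⟨hxy.symm, hy⟩), Finset.card_erase_of_mem hx,
      S.card e he]
    have h3 := S.hr
    rw [Nat.cast_sub (by omega), Nat.cast_sub (by omega)]
    push_cast
    ring

theorem SysE.one [Fintype V] (v x x' : V) (h : S.A v x = 1) (h' : S.A v x' = 1) (hx : x ≠ x')
    (hc : S.C v x x' = 0) :
    S.A x x' + ∑ u, S.C v x' u * S.A x u + ∑ u, S.C v x u * S.A u x' +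
      ∑ u, ∑ u', S.C v x u * (S.C v x' u' * S.A u u') ≤ (k0 : ℝ) := by
  obtain ⟨hvx, e, he, hv, hxe⟩ := exists_edge S h
  obtain ⟨hvx', g, hg, hv', hxg⟩ := exists_edge S h'
  have heg : e ≠ g := by
    rintro rfl
    rw [C_eq S he hvx hv hxe, if_pos] at hc
    · norm_num at hc
    · exact Finset.mem_erase.2 ⟨hx.symm, Finset.mem_erase.2 ⟨hvx'.symm, hxg⟩⟩
  have h1 := S.cross v e he g hg hv hv' heg
  have e1 : ∑ u, S.C v x' u * S.A x u = ∑ u ∈ (g.erase v).erase x', S.A x u :=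
    sumC_mul S hg hvx' hv' hxg _
  have e2 : ∑ u, S.C v x u * S.A u x' = ∑ u ∈ (e.erase v).erase x, S.A u x' :=
    sumC_mul S he hvx hv hxe _
  have e3 : ∑ u, ∑ u', S.C v x u * (S.C v x' u' * S.A u u') =
      ∑ u ∈ (e.erase v).erase x, ∑ u' ∈ (g.erase v).erase x', S.A u u' := by
    rw [← sumC_mul S he hvx hv hxe]
    refine Finset.sum_congr rfl fun u _ => ?_
    rw [← Finset.mul_sum, sumC_mul S hg hvx' hv' hxg]
  have m1 : x ∈ e.erase v := Finset.mem_erase.2 ⟨hvx.symm, hxe⟩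
  have m2 : x' ∈ g.erase v := Finset.mem_erase.2 ⟨hvx'.symm, hxg⟩
  have e4 : S.A x x' + ∑ u, S.C v x' u * S.A x u + ∑ u, S.C v x u * S.A u x' +
      ∑ u, ∑ u', S.C v x u * (S.C v x' u' * S.A u u') =
      ∑ a ∈ e.erase v, ∑ b ∈ g.erase v, S.A a b := by
    rw [e1, e2, e3, ← Finset.add_sum_erase (e.erase v) _ m1,
      ← Finset.add_sum_erase (g.erase v) _ m2]
    have : ∀ u ∈ (e.erase v).erase x, ∑ b ∈ g.erase v, S.A u b =
        S.A u x' + ∑ u' ∈ (g.erase v).erase x', S.A u u' := fun u _ =>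
      (Finset.add_sum_erase (g.erase v) _ m2).symm
    rw [Finset.sum_congr rfl this, Finset.sum_add_distrib]
    ring
  rw [e4, ← Finset.sum_product']
  have h2 : ∑ q ∈ (e.erase v) ×ˢ (g.erase v), S.A q.1 q.2 ≤
      ∑ q ∈ (e.erase v) ×ˢ (g.erase v), if (∃ a ∈ S.H, q.1 ∈ a ∧ q.2 ∈ a) then (1 : ℝ) else 0 := by
    refine Finset.sum_le_sum fun q _ => ?_
    unfold SysE.A
    split_ifs with h3 h4 h4
    · exact le_rfl
    · exact absurd h3.2 h4
    · norm_num
    · exact le_rfl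
  refine h2.trans ?_
  rw [← Finset.sum_filter, Finset.sum_const, nsmul_eq_mul, mul_one]
  exact_mod_cast h1

private theorem A_sum (x y : V) :
    S.A x y = ∑ e ∈ S.H, if x ∈ e ∧ y ∈ e.erase x then (1 : ℝ) else 0 := by
  rcases S.h01 x y with h | h
  · rw [h]
    symm
    refine Finset.sum_eq_zero fun e he => ?_
    rw [if_neg]
    rintro ⟨h1, h2⟩
    rw [Finset.mem_erase] at h2
    have : S.A x y = 1 := by
      unfold SysE.A
      rw [if_pos ⟨h2.1.symm, e, he, h1, h2.2⟩]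
    rw [this] at h
    norm_num at h
  · obtain ⟨hxy, e, he, hx, hy⟩ := exists_edge S h
    rw [h, Finset.sum_eq_single_of_mem e he]
    · rw [if_pos ⟨hx, Finset.mem_erase.2 ⟨hxy.symm, hy⟩⟩]
    · intro g hg hge
      rw [if_neg]
      rintro ⟨h1, h2⟩
      rw [Finset.mem_erase] at h2
      exact hge (edge_unique S hg he hxy h1 h2.2 hx hy)

theorem SysE.sum_edges [Fintype V] (g : V → V → ℝ) :
    ∑ e ∈ S.H, ∑ x ∈ e, ∑ y ∈ e.erase x, g x y = ∑ x, ∑ y, S.A x y * g x y := by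
  have e1 : ∀ x y : V, S.A x y * g x y =
      ∑ e ∈ S.H, if x ∈ e ∧ y ∈ e.erase x then g x y else 0 := by
    intro x y
    rw [A_sum, Finset.sum_mul]
    refine Finset.sum_congr rfl fun e _ => ?_
    split_ifs
    · rw [one_mul]
    · rw [zero_mul]
  have e2 : ∑ x, ∑ y, S.A x y * g x y =
      ∑ e ∈ S.H, ∑ x, ∑ y, if x ∈ e ∧ y ∈ e.erase x then g x y else 0 := by
    rw [Finset.sum_comm]
    rw [Finset.sum_comm]
    simp only [e1]
    rw [Finset.sum_comm]
    have : ∀ x : V, ∑ y, ∑ e ∈ S.H, (if x ∈ e ∧ y ∈ e.erase x then g x y else 0) =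
        ∑ e ∈ S.H, ∑ y, (if x ∈ e ∧ y ∈ e.erase x then g x y else 0) := fun x =>
      Finset.sum_comm
    rw [Finset.sum_comm]
    simp only [this]
    rw [Finset.sum_comm]
  rw [e2]
  refine Finset.sum_congr rfl fun e _ => ?_
  have e3 : ∀ x : V, ∑ y, (if x ∈ e ∧ y ∈ e.erase x then g x y else 0) =
      if x ∈ e then ∑ y ∈ e.erase x, g x y else 0 := by
    intro x
    by_cases hx : x ∈ e
    · rw [if_pos hx, ← Finset.sum_filter]
      refine Finset.sum_congr ?_ fun _ _ => rfl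
      ext y
      simp [hx]
    · rw [if_neg hx]
      refine Finset.sum_eq_zero fun y _ => ?_
      rw [if_neg]
      rintro ⟨h, -⟩
      exact hx h
  simp only [e3]
  rw [← Finset.sum_filter]
  refine Finset.sum_congr ?_ fun _ _ => rfl
  ext x
  simp

/-- Sum over the vertices of the edges. -/
theorem SysE.sum_deg [Fintype V] (g : V → ℝ) :
    ((r : ℝ) - 1) * ∑ e ∈ S.H, ∑ x ∈ e, g x = ∑ x, (∑ y, S.A x y) * g x := by
  have h1 := S.sum_edges (fun x _ => g x)
  have h2 : ∑ x, (∑ y, S.A x y) * g x = ∑ x, ∑ y, S.A x y * g x := by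
    refine Finset.sum_congr rfl fun x _ => ?_
    rw [Finset.sum_mul]
  rw [h2, ← h1, Finset.mul_sum]
  refine Finset.sum_congr rfl fun e he => ?_
  rw [Finset.mul_sum]
  refine Finset.sum_congr rfl fun x hx => ?_
  rw [Finset.sum_const, nsmul_eq_mul, Finset.card_erase_of_mem hx, S.card e he]
  have h3 := S.hr
  rw [Nat.cast_sub (by omega)]
  push_cast
  ring

theorem SysE.card_edges [Fintype V] :
    (r : ℝ) * ((r : ℝ) - 1) * (S.H.card : ℝ) = ∑ x, ∑ y, S.A x y := by
  have h1 := S.sum_deg (fun _ => 1)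
  simp only [mul_one] at h1
  rw [← h1]
  have h2 : ∑ e ∈ S.H, ∑ _x ∈ e, (1 : ℝ) = (S.H.card : ℝ) * r := by
    have : ∀ e ∈ S.H, ∑ _x ∈ e, (1 : ℝ) = r := by
      intro e he
      rw [Finset.sum_const, nsmul_eq_mul, mul_one, S.card e he]
    rw [Finset.sum_congr rfl this, Finset.sum_const, nsmul_eq_mul]
  rw [h2]
  ring

end Pool.Agent.Helper89.SE
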