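import Pool.Agent.Helper89.SE.Base
import Pool.Agent.Helper71.QU.Defs

set_option autoImplicit false

/-! From linear `r`-graphs without `e` edges on `(r - 2) e + 3` vertices to systems with at most
`e - 3` cross pairs. -/

namespace Pool.Agent.Helper89.SE

open Finset Pool.Agent.Helper71.QU

/-- Two edges through `v` are joined by at most `e - 3` cross pairs. -/
theorem cross_le {V : Type} [DecidableEq V] {r e : ℕ} (hr : 3 ≤ r) (he : 3 ≤ e)
    {H : Finset (Finset V)} (hL : Lin r H) (hF : Free r e H) (v : V) (a : Finset V) (ha : a ∈ H)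
    (b : Finset V) (hb : b ∈ H) (hva : v ∈ a) (hvb : v ∈ b) (hab : a ≠ b) :
    (((a.erase v) ×ˢ (b.erase v)).filter (fun q => ∃ c ∈ H, q.1 ∈ c ∧ q.2 ∈ c)).card ≤ e - 3 := by
  classical
  by_contra hcon
  push Not at hcon
  have h1 : e - 2 ≤ (((a.erase v) ×ˢ (b.erase v)).filter
      (fun q => ∃ c ∈ H, q.1 ∈ c ∧ q.2 ∈ c)).card := by omega
  obtain ⟨Q, hQ, hQc⟩ := Finset.exists_subset_card_eq h1
  have heq : ∀ c ∈ H, ∀ d ∈ H, ∀ x y : V, x ≠ y → x ∈ c → y ∈ c → x ∈ d → y ∈ d → c = d := by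
    intro c hc d hd x y hxy h1 h2 h3 h4
    by_contra hne
    have h5 := hL.lin c hc d hd hne
    have h6 : ({x, y} : Finset V) ⊆ c ∩ d := by
      intro z hz
      rw [mem_insert, mem_singleton] at hz
      rcases hz with rfl | rfl
      · exact mem_inter.2 ⟨h1, h3⟩
      · exact mem_inter.2 ⟨h2, h4⟩
    have h7 := card_le_card h6
    rw [card_pair hxy] at h7
    omega
  have hm : ∀ q ∈ Q, (q.1 ≠ v ∧ q.1 ∈ a) ∧ (q.2 ≠ v ∧ q.2 ∈ b) ∧ ∃ c ∈ H, q.1 ∈ c ∧ q.2 ∈ c := by
    intro q hq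
    have := hQ hq
    rw [mem_filter, mem_product, mem_erase, mem_erase] at this
    exact ⟨this.1.1, this.1.2, this.2⟩
  -- points of `a` other than `v` are not in `b`
  have hnb : ∀ x, x ≠ v → x ∈ a → x ∉ b := fun x h1 h2 h3 => hab (heq a ha b hb x v h1 h2 hva h3 hvb)
  have hna : ∀ x, x ≠ v → x ∈ b → x ∉ a := fun x h1 h2 h3 => hab (heq a ha b hb x v h1 h3 hva h2 hvb)
  choose! c hcH hc1 hc2 using fun q hq => (hm q hq).2.2
  have hca : ∀ q ∈ Q, c q ≠ a := fun q hq h => by
    have h1 := hm q hq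
    exact hna q.2 h1.2.1.1 h1.2.1.2 (h ▸ hc2 q hq)
  have hcb : ∀ q ∈ Q, c q ≠ b := fun q hq h => by
    have h1 := hm q hq
    exact hnb q.1 h1.1.1 h1.1.2 (h ▸ hc1 q hq)
  have hinj : ∀ q ∈ Q, ∀ q' ∈ Q, c q = c q' → q = q' := by
    intro q hq q' hq' h
    have h1 := hm q hq
    have h2 := hm q' hq'
    have e1 : q.1 = q'.1 := by
      by_contra hne
      exact hca q hq (heq _ (hcH q hq) a ha q.1 q'.1 hne (hc1 q hq) (h ▸ hc1 q' hq') h1.1.2 h2.1.2)
    have e2 : q.2 = q'.2 := by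
      by_contra hne
      exact hcb q hq (heq _ (hcH q hq) b hb q.2 q'.2 hne (hc2 q hq) (h ▸ hc2 q' hq') h1.2.1.2
        h2.2.1.2)
    exact Prod.ext e1 e2
  set S : Finset (Finset V) := insert a (insert b (Q.image c)) with hS
  have hcardI : (Q.image c).card = e - 2 := by
    rw [Finset.card_image_of_injOn (fun q hq q' hq' h => hinj q hq q' hq' h), hQc]
  have hbI : b ∉ Q.image c := by
    intro h
    obtain ⟨q, hq, h2⟩ := mem_image.1 h
    exact hcb q hq h2
  have haI : a ∉ insert b (Q.image c) := by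
    intro h
    rcases mem_insert.1 h with h | h
    · exact hab h
    · obtain ⟨q, hq, h2⟩ := mem_image.1 h
      exact hca q hq h2
  have hScard : S.card = e := by
    rw [hS, card_insert_of_notMem haI, card_insert_of_notMem hbI, hcardI]
    omega
  have hSH : S ⊆ H := by
    intro z hz
    rw [hS, mem_insert, mem_insert, mem_image] at hz
    rcases hz with rfl | rfl | ⟨q, hq, rfl⟩
    · exact ha
    · exact hb
    · exact hcH q hq
  have h3 := hF S hSH hScard
  -- the union is small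
  have hU : U S ⊆ (a ∪ b) ∪ Q.biUnion (fun q => c q \ (a ∪ b)) := by
    intro z hz
    rw [U, mem_biUnion] at hz
    obtain ⟨d, hd, hzd⟩ := hz
    rw [hS, mem_insert, mem_insert, mem_image] at hd
    by_cases hzab : z ∈ a ∪ b
    · exact mem_union_left _ hzab
    · rcases hd with rfl | rfl | ⟨q, hq, rfl⟩
      · exact absurd (mem_union_left _ hzd) hzab
      · exact absurd (mem_union_right _ hzd) hzab
      · exact mem_union_right _ (mem_biUnion.2 ⟨q, hq, mem_sdiff.2 ⟨hzd, hzab⟩⟩)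
  have hab1 : (a ∪ b).card ≤ 2 * r - 1 := by
    have h4 := card_union_add_card_inter a b
    have h5 : 1 ≤ (a ∩ b).card := card_pos.2 ⟨v, mem_inter.2 ⟨hva, hvb⟩⟩
    have h6 := hL.unif a ha
    have h7 := hL.unif b hb
    omega
  have hcq : ∀ q ∈ Q, (c q \ (a ∪ b)).card ≤ r - 2 := by
    intro q hq
    have h1 := hm q hq
    have h4 := card_sdiff_add_card_inter (c q) (a ∪ b)
    have h5 : 2 ≤ (c q ∩ (a ∪ b)).card := by
      have hne : q.1 ≠ q.2 := fun h => hnb q.1 h1.1.1 h1.1.2 (h ▸ h1.2.1.2)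
      have : ({q.1, q.2} : Finset V) ⊆ c q ∩ (a ∪ b) := by
        intro z hz
        rw [mem_insert, mem_singleton] at hz
        rcases hz with rfl | rfl
        · exact mem_inter.2 ⟨hc1 q hq, mem_union_left _ h1.1.2⟩
        · exact mem_inter.2 ⟨hc2 q hq, mem_union_right _ h1.2.1.2⟩
      have h6 := card_le_card this
      rw [card_pair hne] at h6
      exact h6
    have h6 := hL.unif (c q) (hcH q hq)
    omega
  have h8 := card_le_card hU
  have h9 := card_union_le (a ∪ b) (Q.biUnion (fun q => c q \ (a ∪ b)))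
  have h10 : (Q.biUnion (fun q => c q \ (a ∪ b))).card ≤ Q.card * (r - 2) :=
    card_biUnion_le_card_mul _ _ _ hcq
  rw [hQc] at h10
  have h11 : (r - 2) * e + 3 = (2 * r - 1) + (e - 2) * (r - 2) := by
    obtain ⟨s, rfl⟩ := Nat.exists_eq_add_of_le hr
    obtain ⟨t, rfl⟩ := Nat.exists_eq_add_of_le he
    have e1 : 3 + s - 2 = s + 1 := by omega
    have e2 : 3 + t - 2 = t + 1 := by omega
    have e3 : 2 * (3 + s) - 1 = 2 * s + 5 := by omega
    rw [e1, e2, e3]
    ring
  omega

/-- The system of a linear `r`-graph. -/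
def ofFree {V : Type} [DecidableEq V] {r e : ℕ} (hr : 3 ≤ r) (he : 3 ≤ e)
    {H : Finset (Finset V)} (hL : Lin r H) (hF : Free r e H) : SysE r (e - 3) V where
  H := H
  hr := hr
  card := hL.unif
  lin := hL.lin
  cross := fun v a ha b hb hva hvb hab => cross_le hr he hL hF v a ha b hb hva hvb hab

end Pool.Agent.Helper89.SE
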