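import Pool.Agent.Helper18.SF.Two
import Pool.Agent.Helper18.SF.Corr

set_option autoImplicit false

/-! General uniformity: definitions. -/

namespace Pool.Agent.Helper89.SE

open Finset Pool.Agent.Helper18.SF

/-- A linear `r`-graph in which two edges at a vertex `v` are joined by at most `k0` cross pairs. -/
structure SysE (r k0 : ℕ) (V : Type) [DecidableEq V] where
  H : Finset (Finset V)
  hr : 3 ≤ r
  card : ∀ e ∈ H, e.card = r
  lin : ∀ e ∈ H, ∀ g ∈ H, e ≠ g → (e ∩ g).card ≤ 1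
  cross : ∀ v, ∀ e ∈ H, ∀ g ∈ H, v ∈ e → v ∈ g → e ≠ g →
    (((e.erase v) ×ˢ (g.erase v)).filter (fun q => ∃ a ∈ H, q.1 ∈ a ∧ q.2 ∈ a)).card ≤ k0

variable {V : Type} [DecidableEq V] {r k0 : ℕ}

/-- Indicator of the shadow. -/
noncomputable def SysE.A (S : SysE r k0 V) (x y : V) : ℝ :=
  if x ≠ y ∧ ∃ e ∈ S.H, x ∈ e ∧ y ∈ e then 1 else 0

/-- Indicator of three different vertices in a common edge. -/
noncomputable def SysE.C (S : SysE r k0 V) (x y u : V) : ℝ :=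
  if x ≠ y ∧ x ≠ u ∧ y ≠ u ∧ ∃ e ∈ S.H, x ∈ e ∧ y ∈ e ∧ u ∈ e then 1 else 0

end Pool.Agent.Helper89.SE
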