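import Pool.Agent.Helper89.SE.Twin1

set_option autoImplicit false

/-! General uniformity: the inequality with explicit errors, with a general bound `α` for the
energy and `β` for the triangles. -/

namespace Pool.Agent.Helper89.SE

open Finset Pool.Agent.Helper18.SF

variable {V : Type} [Fintype V] [DecidableEq V] {r k0 : ℕ}

theorem sum_w_eq_ce (S : SysE r k0 V) (Z : Finset V) (x : V) :
    ∑ y, w S.A Z x y = ce (pat S.A Z) (fun z => ∑ y, S.A z y) x := by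
  unfold w ce
  rw [← Finset.sum_div]
  congr 1
  rw [Finset.sum_comm]
  exact Finset.sum_congr rfl fun z _ => Finset.sum_congr rfl fun y _ => S.symm y z

/-- Expansion of a square of a sum over an edge. -/
private theorem sq_edge (e : Finset V) (g : V → V → ℝ) :
    ∑ u, (∑ x ∈ e, g x u) ^ 2 = ∑ x ∈ e, (∑ u, g x u * g x u) +
      ∑ x ∈ e, ∑ y ∈ e.erase x, ∑ u, g x u * g y u := by
  have h1 : ∀ u, (∑ x ∈ e, g x u) ^ 2 =
      ∑ x ∈ e, (g x u * g x u + ∑ y ∈ e.erase x, g x u * g y u) := by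
    intro u
    rw [sq, Finset.sum_mul]
    refine Finset.sum_congr rfl fun x hx => ?_
    rw [Finset.mul_sum, Finset.add_sum_erase e (fun y => g x u * g y u) hx]
  rw [Finset.sum_congr rfl fun u _ => h1 u, Finset.sum_comm, ← Finset.sum_add_distrib]
  refine Finset.sum_congr rfl fun x _ => ?_
  rw [Finset.sum_add_distrib]
  congr 1
  rw [Finset.sum_comm]

theorem explicit (S : SysE r k0 V) (Z : Finset V) (α β E1 E2 E3 E4 : ℝ) (hβ : 0 ≤ β)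
    (hE : ∑ x, (∑ y, w S.A Z x y) * ∑ y, (w S.A Z x y) ^ 2 ≤
      α * ∑ x, (∑ y, w S.A Z x y) * ∑ y, w S.A Z x y + E1)
    (hT : ∑ x, ∑ x', S.A x x' * ∑ y, w S.A Z x y * w S.A Z x' y ≤
      ∑ x, ∑ x', S.A x x' * ∑ y, S.A y x * S.A y x' + E2)
    (hD : ∑ x, (∑ y, S.A x y) ^ 2 ≤ ∑ x, (∑ y, w S.A Z x y) ^ 2 + E3)
    (hX : ∑ x, ∑ x', S.A x x' * ∑ y, S.A y x * S.A y x' ≤ β * ∑ x, (∑ y, S.A x y) ^ 2 + E4) :
    (r : ℝ) * (∑ x, (∑ y, w S.A Z x y) ^ 2) ^ 2 ≤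
      (∑ x, ∑ y, S.A x y) * (Fintype.card V : ℝ) *
      ((α + ((r : ℝ) - 1) * β) * ∑ x, (∑ y, w S.A Z x y) ^ 2 +
        E1 + ((r : ℝ) - 1) * (E2 + β * E3 + E4)) := by
  classical
  have hr3 : (3 : ℝ) ≤ (r : ℝ) := by exact_mod_cast S.hr
  obtain ⟨ρ, hρ⟩ : ∃ ρ : ℝ, ρ = (r : ℝ) - 1 := ⟨_, rfl⟩
  have hρ0 : 0 < ρ := by rw [hρ]; linarith
  set W : V → ℝ := fun x => ∑ y, w S.A Z x y with hW
  set d : V → ℝ := fun x => ∑ y, S.A x y with hd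
  have hWce : ∀ x, W x = ce (pat S.A Z) d x := fun x => sum_w_eq_ce S Z x
  have hWc : ∀ z z', pat S.A Z z = pat S.A Z z' → W z = W z' := by
    intro z z' h
    rw [hWce, hWce]
    exact ce_congr h
  -- averages
  have a1 : ∑ x, W x * ∑ y, (w S.A Z x y) ^ 2 = ∑ x, d x * ∑ y, (w S.A Z x y) ^ 2 := by
    have := sum_ce_mul (pat S.A Z) d (fun x => ∑ y, (w S.A Z x y) ^ 2) (fun z z' h => by
      refine Finset.sum_congr rfl fun y _ => ?_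
      unfold w
      rw [ce_congr h])
    rw [← this]
    exact Finset.sum_congr rfl fun x _ => by rw [hWce]
  have a2 : ∑ x, W x ^ 2 = ∑ x, d x * W x := by
    have := sum_ce_mul (pat S.A Z) d W hWc
    rw [← this]
    exact Finset.sum_congr rfl fun x _ => by rw [← hWce, sq]
  set Q : V → V → ℝ := fun x y => ∑ u, w S.A Z x u * w S.A Z y u with hQ
  have hQx : ∀ x, Q x x = ∑ u, (w S.A Z x u) ^ 2 := fun x =>
    Finset.sum_congr rfl fun u _ => (sq _).symm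
  -- linear part
  have c1 : ρ * ∑ e ∈ S.H, ∑ x ∈ e, W x = ∑ x, W x ^ 2 := by
    rw [a2, hρ]
    exact S.sum_deg W
  -- Cauchy-Schwarz over the edges
  have c2 : (∑ e ∈ S.H, ∑ x ∈ e, W x) ^ 2 ≤ (S.H.card : ℝ) * ∑ e ∈ S.H, (∑ x ∈ e, W x) ^ 2 :=
    sq_sum_le_card_mul_sum_sq
  -- Cauchy-Schwarz over the vertices
  have c3 : ∀ e : Finset V, (∑ x ∈ e, W x) ^ 2 ≤
      (Fintype.card V : ℝ) * ∑ u, (∑ x ∈ e, w S.A Z x u) ^ 2 := by
    intro e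
    have h1 : ∑ x ∈ e, W x = ∑ u, ∑ x ∈ e, w S.A Z x u := by
      rw [hW, Finset.sum_comm]
    have h2 := sq_sum_le_card_mul_sum_sq (s := (univ : Finset V))
      (f := fun u => ∑ x ∈ e, w S.A Z x u)
    rw [Finset.card_univ] at h2
    rw [h1]
    exact h2
  have c4 : ∑ e ∈ S.H, ∑ u, (∑ x ∈ e, w S.A Z x u) ^ 2 =
      ∑ e ∈ S.H, ∑ x ∈ e, Q x x + ∑ x, ∑ y, S.A x y * Q x y := by
    rw [← S.sum_edges Q, ← Finset.sum_add_distrib]
    exact Finset.sum_congr rfl fun e _ => sq_edge e (fun x u => w S.A Z x u)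
  have c5 : ρ * ∑ e ∈ S.H, ∑ x ∈ e, Q x x = ∑ x, d x * Q x x := by
    rw [hρ]
    exact S.sum_deg fun x => Q x x
  have c6 : (∑ e ∈ S.H, ∑ x ∈ e, W x) ^ 2 ≤ (S.H.card : ℝ) * ((Fintype.card V : ℝ) *
      (∑ e ∈ S.H, ∑ x ∈ e, Q x x + ∑ x, ∑ y, S.A x y * Q x y)) := by
    refine c2.trans (mul_le_mul_of_nonneg_left ?_ (Nat.cast_nonneg _))
    rw [← c4, Finset.mul_sum]
    exact Finset.sum_le_sum fun e _ => c3 e
  have c7 : (r : ℝ) * ρ * (S.H.card : ℝ) = ∑ x, ∑ y, S.A x y := by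
    rw [hρ]
    exact S.card_edges
  have hm : 0 ≤ ∑ x, ∑ y, S.A x y :=
    Finset.sum_nonneg fun x _ => Finset.sum_nonneg fun y _ => S.A_nonneg x y
  have hn : (0 : ℝ) ≤ Fintype.card V := Nat.cast_nonneg _
  have e2 : ∑ x, d x * Q x x ≤ α * ∑ x, W x ^ 2 + E1 := by
    have h1 : ∑ x, d x * Q x x = ∑ x, W x * ∑ y, (w S.A Z x y) ^ 2 := by
      rw [a1]
      exact Finset.sum_congr rfl fun x _ => by rw [hQx]
    rw [h1]
    refine hE.trans (le_of_eq ?_)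
    congr 2
    exact Finset.sum_congr rfl fun x _ => (sq _).symm
  have e3 : ρ * ∑ x, ∑ y, S.A x y * Q x y ≤ ρ * (β * (∑ x, W x ^ 2 + E3) + E4 + E2) := by
    refine mul_le_mul_of_nonneg_left ?_ hρ0.le
    refine hT.trans ?_
    have := mul_le_mul_of_nonneg_left hD hβ
    linarith
  have e4 : (r : ℝ) * (∑ x, W x ^ 2) ^ 2 = (r : ℝ) * ρ ^ 2 * (∑ e ∈ S.H, ∑ x ∈ e, W x) ^ 2 := by
    rw [← c1]
    ring
  rw [← hρ, e4]
  calc (r : ℝ) * ρ ^ 2 * (∑ e ∈ S.H, ∑ x ∈ e, W x) ^ 2 ≤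
      (r : ℝ) * ρ ^ 2 * ((S.H.card : ℝ) * ((Fintype.card V : ℝ) *
      (∑ e ∈ S.H, ∑ x ∈ e, Q x x + ∑ x, ∑ y, S.A x y * Q x y))) :=
        mul_le_mul_of_nonneg_left c6 (by positivity)
    _ = ((r : ℝ) * ρ * (S.H.card : ℝ)) * (Fintype.card V : ℝ) *
        (ρ * ∑ e ∈ S.H, ∑ x ∈ e, Q x x + ρ * ∑ x, ∑ y, S.A x y * Q x y) := by ring
    _ = (∑ x, ∑ y, S.A x y) * (Fintype.card V : ℝ) *
        (∑ x, d x * Q x x + ρ * ∑ x, ∑ y, S.A x y * Q x y) := by rw [c7, c5]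
    _ ≤ _ := by
        refine mul_le_mul_of_nonneg_left ?_ (mul_nonneg hm hn)
        have h5 : (α + ρ * β) * ∑ x, W x ^ 2 + E1 + ρ * (E2 + β * E3 + E4) =
            (α * ∑ x, W x ^ 2 + E1) + ρ * (β * (∑ x, W x ^ 2 + E3) + E4 + E2) := by ring
        rw [h5]
        linarith [e2, e3]

end Pool.Agent.Helper89.SE
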