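import Pool.Agent.Helper89.SE.Twin3
import Pool.Agent.Helper89.SE.Expl
import Pool.Agent.Helper18.SR.Tri

set_option autoImplicit false

/-! The bound for systems with at most `k0` cross pairs and triangle density `β`. -/

namespace Pool.Agent.Helper89.SE

open Finset Pool.Agent.Helper18.SF

/-- Final arithmetic. -/
theorem arith (r κ m n D ε : ℝ) (hr : 1 ≤ r) (hκ : 0 ≤ κ) (hn : 0 < n) (hε : 0 < ε)
    (hm : 0 ≤ m) (hD : m ^ 2 ≤ n * D)
    (h : r * D ^ 2 ≤ m * n * (κ * D + ε ^ 3 * n ^ 3)) : m ≤ (κ / r + ε) * n ^ 2 := by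
  by_contra hc
  push Not at hc
  have hr0 : 0 < r := by linarith
  have hκr : 0 ≤ κ / r := by positivity
  have hn2 : 0 < n ^ 2 := by positivity
  have hm1 : ε * n ^ 2 < m := by nlinarith
  have hmp : 0 < m := lt_trans (by positivity) hm1
  have hD1 : ε ^ 2 * n ^ 3 < D := by
    have h1 : (ε * n ^ 2) ^ 2 < m ^ 2 := by
      apply pow_lt_pow_left₀ hm1 (by positivity) (by norm_num)
    have h2 : (ε * n ^ 2) ^ 2 < n * D := lt_of_lt_of_le h1 hD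
    have h3 : n * (ε ^ 2 * n ^ 3) < n * D := by
      calc n * (ε ^ 2 * n ^ 3) = (ε * n ^ 2) ^ 2 := by ring
        _ < n * D := h2
    exact lt_of_mul_lt_mul_left h3 hn.le
  have hDp : 0 < D := lt_trans (by positivity) hD1
  have h4 : κ * D + ε ^ 3 * n ^ 3 ≤ (κ + ε) * D := by
    have : ε * (ε ^ 2 * n ^ 3) ≤ ε * D := mul_le_mul_of_nonneg_left hD1.le hε.le
    nlinarith
  have h5 : r * D ^ 2 ≤ m * n * ((κ + ε) * D) :=
    le_trans h (mul_le_mul_of_nonneg_left h4 (by positivity))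
  have h6 : r * D ≤ m * n * (κ + ε) := by
    have : (r * D) * D ≤ (m * n * (κ + ε)) * D := by nlinarith
    exact le_of_mul_le_mul_right this hDp
  have h7 : r * m ^ 2 ≤ n * (m * n * (κ + ε)) := by
    calc r * m ^ 2 ≤ r * (n * D) := mul_le_mul_of_nonneg_left hD hr0.le
      _ = n * (r * D) := by ring
      _ ≤ n * (m * n * (κ + ε)) := mul_le_mul_of_nonneg_left h6 hn.le
  have h8 : m * (r * m) ≤ m * (n ^ 2 * (κ + ε)) := by nlinarith
  have h9 : r * m ≤ n ^ 2 * (κ + ε) := le_of_mul_le_mul_left h8 hmp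
  have h10 : r * ((κ / r + ε) * n ^ 2) < r * m := mul_lt_mul_of_pos_left hc hr0
  have h11 : r * ((κ / r + ε) * n ^ 2) = (κ + r * ε) * n ^ 2 := by
    field_simp
  have h12 : (κ + ε) * n ^ 2 ≤ (κ + r * ε) * n ^ 2 := by
    refine mul_le_mul_of_nonneg_right ?_ hn2.le
    nlinarith
  linarith

theorem main_sys (r k0 : ℕ) (β C : ℝ) (hβ : 0 ≤ β) (ε : ℝ) (hε : 0 < ε) :
    ∃ N : ℕ, ∀ (V : Type) [Fintype V] [DecidableEq V],
    N ≤ Fintype.card V → ∀ S : SysE r k0 V,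
      (∑ x, ∑ x', S.A x x' * ∑ y, S.A y x * S.A y x' ≤
        β * ∑ x, (∑ y, S.A x y) ^ 2 + C * (Fintype.card V : ℝ) ^ 2) →
      ∑ x, ∑ y, S.A x y ≤ (((k0 : ℝ) / (2 * ((r : ℝ) - 2)) + ((r : ℝ) - 1) * β) / r + ε) *
        (Fintype.card V : ℝ) ^ 2 := by
  by_cases hr : 3 ≤ r
  swap
  · exact ⟨0, fun V _ _ _ S => absurd S.hr hr⟩
  have hr3 : (3 : ℝ) ≤ (r : ℝ) := by exact_mod_cast hr
  have hk0 : (0 : ℝ) ≤ (k0 : ℝ) := Nat.cast_nonneg _
  obtain ⟨δ, hδdef⟩ : ∃ δ : ℝ, δ = ε ^ 3 := ⟨_, rfl⟩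
  have hδ : 0 < δ := by rw [hδdef]; positivity
  -- the parameters
  obtain ⟨ρ, hρ⟩ : ∃ ρ : ℝ, ρ = (r : ℝ) - 1 := ⟨_, rfl⟩
  have hρ0 : 0 < ρ := by rw [hρ]; linarith
  set κ : ℝ := δ / (8 * r) with hκdef
  have hκ : 0 < κ := by positivity
  obtain ⟨s, hs, hs1, hs2⟩ : ∃ s : ℝ, 0 < s ∧ r * (3 * s) / κ ≤ δ / 8 ∧
      ρ * ((2 + β) * s) ≤ δ / 8 := by
    refine ⟨min (δ * κ / (24 * r)) (δ / (8 * (ρ * (2 + β)))), by positivity, ?_, ?_⟩
    · have h1 : min (δ * κ / (24 * r)) (δ / (8 * (ρ * (2 + β)))) ≤ δ * κ / (24 * r) :=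
        min_le_left _ _
      rw [div_le_iff₀ hκ]
      calc (r : ℝ) * (3 * min (δ * κ / (24 * r)) (δ / (8 * (ρ * (2 + β))))) ≤
          r * (3 * (δ * κ / (24 * r))) :=
            mul_le_mul_of_nonneg_left (mul_le_mul_of_nonneg_left h1 (by norm_num)) (by linarith)
        _ = δ / 8 * κ := by field_simp; ring
    · have h1 : min (δ * κ / (24 * r)) (δ / (8 * (ρ * (2 + β)))) ≤ δ / (8 * (ρ * (2 + β))) :=
        min_le_right _ _
      have hp : 0 < ρ * (2 + β) := by positivity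
      calc ρ * ((2 + β) * min (δ * κ / (24 * r)) (δ / (8 * (ρ * (2 + β))))) =
          (ρ * (2 + β)) * min (δ * κ / (24 * r)) (δ / (8 * (ρ * (2 + β)))) := by ring
        _ ≤ (ρ * (2 + β)) * (δ / (8 * (ρ * (2 + β)))) := mul_le_mul_of_nonneg_left h1 hp.le
        _ = δ / 8 := by field_simp
  obtain ⟨M, hM⟩ := two_scale (s ^ 2) (by positivity) (fun k => (s / 2 ^ k) ^ 2)
    (fun k => by positivity)
  set C' : ℝ := |C| with hC'
  have hC'0 : 0 ≤ C' := abs_nonneg _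
  obtain ⟨N, hN⟩ := exists_nat_gt (((r : ℝ) ^ 2 * 2 ^ M + ρ * C') * 8 / δ)
  refine ⟨N + 1, ?_⟩
  intro V _ _ hcard S hX
  set n : ℝ := (Fintype.card V : ℝ) with hn
  have hnN : (N : ℝ) + 1 ≤ n := by
    rw [hn]
    exact_mod_cast hcard
  have hn1 : 1 ≤ n := by
    have : (0 : ℝ) ≤ N := Nat.cast_nonneg _
    linarith
  have hnpos : 0 < n := by linarith
  have hnbig : ((r : ℝ) ^ 2 * 2 ^ M + ρ * C') * 8 ≤ δ * n := by
    have h1 : ((r : ℝ) ^ 2 * 2 ^ M + ρ * C') * 8 / δ < n := by linarith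
    rw [div_lt_iff₀ hδ] at h1
    linarith
  obtain ⟨Z, Z', hZZ, hZM, h0, h1, h2⟩ := hM V S.A S.h01
  have hD1 := dev_bound S Z Z' hZZ (s ^ 2) ((s / 2 ^ Z.card) ^ 2) (by positivity)
    (by positivity) h1 h2
  rw [Real.sqrt_sq hs.le, Real.sqrt_sq (by positivity)] at hD1
  have hX2 : (r : ℝ) * (2 ^ Z.card * (s / 2 ^ Z.card) + 2 * s) * (Fintype.card V : ℝ) ^ 2 =
      (r * (3 * s)) * n ^ 2 := by
    have : (2 : ℝ) ^ Z.card * (s / 2 ^ Z.card) = s := by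
      field_simp
    rw [this, ← hn]
    ring
  rw [hX2] at hD1
  set db : V → ℝ := fun x => ∑ y, w S.A Z x y with hdb
  have hdb0 : ∀ x, 0 ≤ db x := fun x => Finset.sum_nonneg (fun y _ => w_nonneg S Z x y)
  have hdb1 : ∀ x, db x ≤ n := fun x => by
    calc db x ≤ ∑ _y : V, (1 : ℝ) := Finset.sum_le_sum (fun y _ => w_le_one S Z x y)
      _ = n := by simp [hn]
  have hdbc : ∀ z z', pat S.A Z z = pat S.A Z z' → db z = db z' := fun z z' h => by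
    simp only [hdb]
    exact Finset.sum_congr rfl (fun y _ => ce_congr h)
  have hE := twin S Z κ ((r * (3 * s)) * n ^ 2) hκ hD1 db hdb0 n hnpos.le hdb1 hdbc
  have hT := Pool.Agent.Helper18.SR.tri_compare S.A S.h01 S.symm Z ((s / 2 ^ 0) ^ 2)
    (by positivity) h0
  have hD := Pool.Agent.Helper18.SR.deg_compare S.A S.h01 S.symm Z ((s / 2 ^ 0) ^ 2)
    (by positivity) h0
  rw [Real.sqrt_sq (by positivity), pow_zero, div_one] at hT hD
  have key := explicit S Z _ β _ _ _ _ hβ hE hT hD hX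
  have hm0 : 0 ≤ ∑ x, ∑ y, S.A x y :=
    Finset.sum_nonneg (fun x _ => Finset.sum_nonneg (fun y _ => S.A_nonneg x y))
  have hCS : (∑ x, ∑ y, S.A x y) ^ 2 ≤ n * ∑ x, (∑ y, w S.A Z x y) ^ 2 := by
    have h3 : ∑ x, ∑ y, S.A x y = ∑ x, db x := by
      rw [← sum_ce (pat S.A Z) (fun z => ∑ y, S.A z y)]
      exact Finset.sum_congr rfl fun x _ => (sum_w_eq_ce S Z x).symm
    have h4 := sq_sum_le_card_mul_sum_sq (s := (univ : Finset V)) (f := db)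
    rw [Finset.card_univ, ← h3] at h4
    exact h4
  have h2M : (2 : ℝ) ^ Z.card ≤ 2 ^ M := pow_le_pow_right₀ (by norm_num) hZM
  have hn2 : 0 < n ^ 2 := by positivity
  have hn3 : 0 < n ^ 3 := by positivity
  refine arith r _ _ n (∑ x, (∑ y, w S.A Z x y) ^ 2) ε (by linarith) ?_ hnpos hε hm0 hCS ?_
  · have : 0 < (r : ℝ) - 2 := by linarith
    have h1 : 0 ≤ (k0 : ℝ) / (2 * ((r : ℝ) - 2)) := by positivity
    have h2 : 0 ≤ ((r : ℝ) - 1) * β := mul_nonneg (by linarith) hβ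
    linarith
  · refine le_trans key ?_
    refine mul_le_mul_of_nonneg_left ?_ (by positivity)
    rw [← hρ, ← hδdef]
    have f1 : n * ((r : ℝ) ^ 2 * n * 2 ^ Z.card + r * κ * n ^ 2 + (r * (3 * s)) * n ^ 2 / κ) ≤
        (r : ℝ) ^ 2 * 2 ^ M * n ^ 2 + δ / 8 * n ^ 3 + δ / 8 * n ^ 3 := by
      have g1 : n * ((r : ℝ) ^ 2 * n * 2 ^ Z.card) ≤ (r : ℝ) ^ 2 * 2 ^ M * n ^ 2 := by
        calc n * ((r : ℝ) ^ 2 * n * 2 ^ Z.card) = ((r : ℝ) ^ 2 * n ^ 2) * 2 ^ Z.card := by ring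
          _ ≤ ((r : ℝ) ^ 2 * n ^ 2) * 2 ^ M := mul_le_mul_of_nonneg_left h2M (by positivity)
          _ = _ := by ring
      have g2 : n * (r * κ * n ^ 2) = δ / 8 * n ^ 3 := by
        rw [hκdef]
        field_simp
      have g3 : n * ((r * (3 * s)) * n ^ 2 / κ) ≤ δ / 8 * n ^ 3 := by
        calc n * ((r * (3 * s)) * n ^ 2 / κ) = (r * (3 * s) / κ) * n ^ 3 := by ring
          _ ≤ δ / 8 * n ^ 3 := mul_le_mul_of_nonneg_right hs1 hn3.le
      calc _ = n * ((r : ℝ) ^ 2 * n * 2 ^ Z.card) + n * (r * κ * n ^ 2) +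
            n * ((r * (3 * s)) * n ^ 2 / κ) := by ring
        _ ≤ _ := by linarith
    have f2 : ρ * (2 * s * n ^ 3 + β * (s * n ^ 3) + C * n ^ 2) ≤
        δ / 8 * n ^ 3 + ρ * C' * n ^ 2 := by
      have g1 : ρ * (2 * s * n ^ 3 + β * (s * n ^ 3)) ≤ δ / 8 * n ^ 3 := by
        calc ρ * (2 * s * n ^ 3 + β * (s * n ^ 3)) = ρ * ((2 + β) * s) * n ^ 3 := by ring
          _ ≤ δ / 8 * n ^ 3 := mul_le_mul_of_nonneg_right hs2 hn3.le
      have g2 : ρ * (C * n ^ 2) ≤ ρ * C' * n ^ 2 := by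
        have : C ≤ C' := le_abs_self C
        calc ρ * (C * n ^ 2) = (ρ * n ^ 2) * C := by ring
          _ ≤ (ρ * n ^ 2) * C' := mul_le_mul_of_nonneg_left this (by positivity)
          _ = _ := by ring
      calc _ = ρ * (2 * s * n ^ 3 + β * (s * n ^ 3)) + ρ * (C * n ^ 2) := by ring
        _ ≤ _ := by linarith
    have f3 : (r : ℝ) ^ 2 * 2 ^ M * n ^ 2 + ρ * C' * n ^ 2 ≤ δ / 8 * n ^ 3 := by
      have : ((r : ℝ) ^ 2 * 2 ^ M + ρ * C') * n ^ 2 ≤ (δ * n / 8) * n ^ 2 :=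
        mul_le_mul_of_nonneg_right (by linarith) hn2.le
      calc (r : ℝ) ^ 2 * 2 ^ M * n ^ 2 + ρ * C' * n ^ 2 =
          ((r : ℝ) ^ 2 * 2 ^ M + ρ * C') * n ^ 2 := by ring
        _ ≤ (δ * n / 8) * n ^ 2 := this
        _ = _ := by ring
    have f4 : 0 ≤ δ * n ^ 3 := by positivity
    linarith

end Pool.Agent.Helper89.SE
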