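import Pool.Agent.Helper89.SE.Main
import Pool.Agent.Helper89.SE.Comb
import Pool.Agent.Helper71.QU.DEL
import Pool.Agent.Helper71.QU.BAD
import Pool.Agent.Helper71.QU.TRI

set_option autoImplicit false

/-! The density bound. -/

namespace Pool.Agent.Helper89.SE

open Finset Pool.Agent.Helper71.QU

/-- The constant. -/
noncomputable def KK (r e : ℝ) : ℝ :=
  (e - 3) * ((r - 1) * (e - 1) + 6 * (r - 2)) / (2 * (r - 2) * (e - 1))

theorem A_adj {V : Type} [DecidableEq V] {r e : ℕ} (hr : 3 ≤ r) (he : 3 ≤ e)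
    {H : Finset (Finset V)} (hL : Lin r H) (hF : Free r e H) (x y : V) [Decidable (Adj H x y)] :
    (ofFree hr he hL hF).A x y = if Adj H x y then 1 else 0 := by
  unfold SysE.A
  exact if_congr Iff.rfl rfl rfl

theorem sum_A_dg {V : Type} [Fintype V] [DecidableEq V] {r e : ℕ} (hr : 3 ≤ r) (he : 3 ≤ e)
    {H : Finset (Finset V)} (hL : Lin r H) (hF : Free r e H) (x : V) :
    ∑ y, (ofFree hr he hL hF).A x y = ((r : ℝ) - 1) * (dg H x : ℝ) := by
  classical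
  have h := (ofFree hr he hL hF).sum_deg (fun z => if z = x then 1 else 0)
  have h1 : ∑ z, (∑ y, (ofFree hr he hL hF).A z y) * (if z = x then (1 : ℝ) else 0) =
      ∑ y, (ofFree hr he hL hF).A x y := by
    simp
  rw [h1] at h
  rw [← h]
  congr 1
  have h2 : ∀ a ∈ (ofFree hr he hL hF).H, ∑ z ∈ a, (if z = x then (1 : ℝ) else 0) =
      if x ∈ a then 1 else 0 := by
    intro a _
    rw [Finset.sum_ite_eq']
  rw [Finset.sum_congr rfl h2, ← Finset.sum_filter]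
  simp [dg, ofFree]

theorem X3_eq {V : Type} [Fintype V] [DecidableEq V] {r e : ℕ} (hr : 3 ≤ r) (he : 3 ≤ e)
    {H : Finset (Finset V)} (hL : Lin r H) (hF : Free r e H) :
    ∑ x, ∑ x', (ofFree hr he hL hF).A x x' *
      ∑ y, (ofFree hr he hL hF).A y x * (ofFree hr he hL hF).A y x' = (X3 H : ℝ) := by
  classical
  set S := ofFree hr he hL hF with hS
  have hA : ∀ x y, S.A x y = if Adj H x y then 1 else 0 := fun x y => A_adj hr he hL hF x y
  have h1 : (X3 H : ℝ) = ∑ t : V × V × V, S.A t.1 t.2.1 * S.A t.1 t.2.2 * S.A t.2.1 t.2.2 := by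
    unfold X3
    rw [Finset.card_filter]
    push_cast
    refine Finset.sum_congr rfl fun t _ => ?_
    rw [hA, hA, hA]
    by_cases a1 : Adj H t.1 t.2.1 <;> by_cases a2 : Adj H t.1 t.2.2 <;>
      by_cases a3 : Adj H t.2.1 t.2.2 <;> simp [a1, a2, a3]
  rw [h1, Fintype.sum_prod_type, Finset.sum_congr rfl fun x _ => Fintype.sum_prod_type _]
  have h2 : ∑ x, ∑ x', S.A x x' * ∑ y, S.A y x * S.A y x' =
      ∑ x, ∑ x', ∑ y, S.A y x * S.A y x' * S.A x x' := by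
    refine Finset.sum_congr rfl fun x _ => Finset.sum_congr rfl fun x' _ => ?_
    rw [Finset.mul_sum]
    exact Finset.sum_congr rfl fun y _ => by ring
  rw [h2]
  symm
  rw [Finset.sum_comm]
  refine Finset.sum_congr rfl fun x _ => ?_
  rw [Finset.sum_comm]

/-- Linear `r`-graphs without `e` edges on at most `(r - 2) e + 3` vertices. -/
theorem density (r e : ℕ) (hr : 3 ≤ r) (he : 3 ≤ e) (ε : ℝ) (hε : 0 < ε) :
    ∃ n₀ : ℕ, ∀ n ≥ n₀, ∀ H : Finset (Finset (Fin n)), Lin r H → Free r e H →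
      (H.card : ℝ) ≤ (KK r e / ((r : ℝ) ^ 2 * ((r : ℝ) - 1) ^ 2) + ε) * (n : ℝ) ^ 2 := by
  have he3 : (3 : ℝ) ≤ e := by exact_mod_cast he
  have hr3 : (3 : ℝ) ≤ r := by exact_mod_cast hr
  have he1 : (0 : ℝ) < (e : ℝ) - 1 := by linarith
  have hr1 : (0 : ℝ) < (r : ℝ) - 1 := by linarith
  have hr2 : (0 : ℝ) < (r : ℝ) - 2 := by linarith
  set C : ℝ := (e : ℝ) ^ 3 * (1 + (r : ℝ) ^ 3) + (e : ℝ) * (r : ℝ) ^ 3 + (e : ℝ) * r with hC
  obtain ⟨β, hβ⟩ : ∃ β : ℝ, β = 3 * ((e : ℝ) - 3) / (((e : ℝ) - 1) * ((r : ℝ) - 1) ^ 2) := ⟨_, rfl⟩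
  have hβ0 : 0 ≤ β := by
    rw [hβ]
    exact div_nonneg (by linarith) (by positivity)
  obtain ⟨n₁, hn₁⟩ := main_sys r (e - 3) β (C / ((e : ℝ) - 1)) hβ0 (ε / 2) (by positivity)
  set D : ℝ := ((r : ℝ) * e + 2) * e with hD
  have hD0 : 0 ≤ D := by positivity
  refine ⟨max n₁ (⌈D / (ε / 2)⌉₊ + 1), ?_⟩
  intro n hn H hL hF
  have hn1 : n₁ ≤ n := le_trans (le_max_left _ _) hn
  have hn2 : ⌈D / (ε / 2)⌉₊ + 1 ≤ n := le_trans (le_max_right _ _) hn
  have hn0 : 0 < n := by omega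
  have hnR : (0 : ℝ) < n := by exact_mod_cast hn0
  obtain ⟨H', hH', hM, hcard⟩ := deletion hr hL hF
  rw [Fintype.card_fin] at hcard
  have hL' := hL.mono hH'
  have hF' := hF.mono hH'
  have h1 := hn₁ (Fin n) (by rw [Fintype.card_fin]; exact hn1) (ofFree hr he hL' hF') ?_
  · -- conclusion
    rw [← SysE.card_edges, Fintype.card_fin] at h1
    have hHH : ((ofFree hr he hL' hF').H.card : ℝ) = (H'.card : ℝ) := rfl
    rw [hHH] at h1
    have hcast : ((e - 3 : ℕ) : ℝ) = (e : ℝ) - 3 := by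
      rw [Nat.cast_sub he]; norm_num
    rw [hcast] at h1
    have h2 : (H.card : ℝ) ≤ H'.card + D * n := by
      have : (H.card : ℝ) ≤ ((H'.card + (r * e + 2) * (e * n) : ℕ) : ℝ) := by exact_mod_cast hcard
      push_cast at this
      rw [hD]
      linarith
    have h3 : D * n ≤ ε / 2 * (n : ℝ) ^ 2 := by
      have h4 : D / (ε / 2) ≤ (n : ℝ) := by
        have h5 : ((⌈D / (ε / 2)⌉₊ + 1 : ℕ) : ℝ) ≤ n := by exact_mod_cast hn2
        push_cast at h5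
        linarith [Nat.le_ceil (D / (ε / 2))]
      rw [div_le_iff₀ (by positivity)] at h4
      nlinarith
    have h4 : (H'.card : ℝ) ≤ (KK r e / ((r : ℝ) ^ 2 * ((r : ℝ) - 1) ^ 2) + ε / 2) * (n : ℝ) ^ 2 := by
      have hrr : 0 < (r : ℝ) * ((r : ℝ) - 1) := by positivity
      have h5 : (r : ℝ) * ((r : ℝ) - 1) * H'.card ≤ (r : ℝ) * ((r : ℝ) - 1) *
          ((KK r e / ((r : ℝ) ^ 2 * ((r : ℝ) - 1) ^ 2) + ε / 2) * (n : ℝ) ^ 2) := by
        refine h1.trans ?_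
        have e1 : (r : ℝ) * ((r : ℝ) - 1) *
            ((KK r e / ((r : ℝ) ^ 2 * ((r : ℝ) - 1) ^ 2) + ε / 2) * (n : ℝ) ^ 2) =
            ((((e : ℝ) - 3) / (2 * ((r : ℝ) - 2)) + ((r : ℝ) - 1) * β) / r +
              (r : ℝ) * ((r : ℝ) - 1) * (ε / 2)) * (n : ℝ) ^ 2 := by
          rw [hβ]
          unfold KK
          field_simp
          ring
        rw [e1]
        refine mul_le_mul_of_nonneg_right ?_ (by positivity)
        have : ε / 2 ≤ (r : ℝ) * ((r : ℝ) - 1) * (ε / 2) :=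
          le_mul_of_one_le_left (by positivity) (by nlinarith)
        linarith
      exact le_of_mul_le_mul_left h5 hrr
    calc (H.card : ℝ) ≤ H'.card + D * n := h2
      _ ≤ _ := by linarith
  · -- triangles
    rw [X3_eq hr he hL' hF']
    have hs := tri_sum hr he hL' hF' hM
    have hc := cherries_card_le hL'
    have hq := card_le_sq hr hL'
    have hx := X3_le hr hL'
    rw [Fintype.card_fin] at hq
    have hsR : ((e : ℝ) - 1) * ∑ p ∈ cherries H', ((thirds H' p).card : ℝ) ≤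
        3 * ((e : ℝ) - 3) * (cherries H').card + (e : ℝ) ^ 3 * H'.card := by
      have := hs
      exact_mod_cast this
    have hcR : ((cherries H').card : ℝ) ≤ ∑ x : Fin n, (dg H' x : ℝ) ^ 2 := by
      exact_mod_cast hc
    have hqR : (H'.card : ℝ) ≤ (n : ℝ) ^ 2 := by exact_mod_cast hq
    have hxR : (X3 H' : ℝ) ≤ ∑ p ∈ cherries H', ((thirds H' p).card : ℝ) +
        (r : ℝ) ^ 3 * H'.card := by
      exact_mod_cast hx
    have e3 : (0 : ℝ) ≤ 3 * ((e : ℝ) - 3) := by linarith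
    have a1 := mul_le_mul_of_nonneg_left hxR he1.le
    have a2 := mul_le_mul_of_nonneg_left hcR e3
    have a3 : ((e : ℝ) ^ 3 + ((e : ℝ) - 1) * (r : ℝ) ^ 3) * H'.card ≤
        ((e : ℝ) ^ 3 + ((e : ℝ) - 1) * (r : ℝ) ^ 3) * (n : ℝ) ^ 2 :=
      mul_le_mul_of_nonneg_left hqR (by positivity)
    have a4 : ((e : ℝ) ^ 3 + ((e : ℝ) - 1) * (r : ℝ) ^ 3) ≤ C := by
      rw [hC]
      have b1 : 0 ≤ (e : ℝ) ^ 3 * (r : ℝ) ^ 3 := by positivity
      have b2 : 0 ≤ (r : ℝ) ^ 3 := by positivity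
      have b3 : 0 ≤ (e : ℝ) * r := by positivity
      nlinarith
    have a5 := mul_le_mul_of_nonneg_right a4 (by positivity : (0 : ℝ) ≤ (n : ℝ) ^ 2)
    have key : ((e : ℝ) - 1) * X3 H' ≤ 3 * ((e : ℝ) - 3) * ∑ x : Fin n, (dg H' x : ℝ) ^ 2 +
        C * (n : ℝ) ^ 2 := by nlinarith
    have e4 : ∑ x, (∑ y, (ofFree hr he hL' hF').A x y) ^ 2 =
        ((r : ℝ) - 1) ^ 2 * ∑ x : Fin n, (dg H' x : ℝ) ^ 2 := by
      rw [Finset.mul_sum]
      refine Finset.sum_congr rfl fun x _ => ?_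
      rw [sum_A_dg hr he hL' hF' x]
      ring
    rw [e4, Fintype.card_fin, hβ]
    have e5 : 3 * ((e : ℝ) - 3) / (((e : ℝ) - 1) * ((r : ℝ) - 1) ^ 2) *
        (((r : ℝ) - 1) ^ 2 * ∑ x : Fin n, (dg H' x : ℝ) ^ 2) + C / ((e : ℝ) - 1) * (n : ℝ) ^ 2 =
        (3 * ((e : ℝ) - 3) * ∑ x : Fin n, (dg H' x : ℝ) ^ 2 + C * (n : ℝ) ^ 2) / ((e : ℝ) - 1) := by
      field_simp
    rw [e5, le_div_iff₀ he1]
    linarith

end Pool.Agent.Helper89.SE
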