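import Mathlib
import Pool.Agent.Helper71.QU.RES
import Pool.Agent.Helper89.SE.Res

/-!
# From the density bound to colourings of complete linear `r`-graphs
-/

set_option autoImplicit false

namespace Pool.Agent.Helper89.SE

open Finset Pool.Agent.Helper71.QU

/-- The number of edges of a complete linear `r`-graph. -/
lemma card_complete {r n : ℕ} {H : Finset (Finset (Fin n))} (hu : ∀ A ∈ H, A.card = r)
    (hc : ∀ x y : Fin n, x ≠ y → ∃ A ∈ H, x ∈ A ∧ y ∈ A) :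
    n * (n - 1) ≤ H.card * (r * (r - 1)) := by
  have h1 : (univ : Finset (Fin n)).offDiag ⊆ H.biUnion (fun A => A.offDiag) := by
    intro p hp
    obtain ⟨-, -, hne⟩ := mem_offDiag.1 hp
    obtain ⟨A, hA, h1, h2⟩ := hc p.1 p.2 hne
    exact mem_biUnion.2 ⟨A, hA, mem_offDiag.2 ⟨h1, h2, hne⟩⟩
  have h2 : #(H.biUnion (fun A => A.offDiag)) ≤ #H * (r * (r - 1)) := by
    apply card_biUnion_le_card_mul
    intro A hA
    rw [offDiag_card, hu A hA, Nat.mul_sub, mul_one]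
  have h3 := (card_le_card h1).trans h2
  rw [offDiag_card, card_univ, Fintype.card_fin] at h3
  rw [Nat.mul_sub, mul_one]
  exact h3

/-- The density bound with the constant `K / (r ^ 2 (r - 1) ^ 2)` gives the Ramsey form for `c`
colours whenever `c K < r (r - 1)`. -/
theorem ramsey_of_density (r e c : ℕ) (K : ℝ) (hr : 3 ≤ r) (hc : 1 ≤ c)
    (hrcR : (c : ℝ) * K < r * ((r : ℝ) - 1))
    (hdens : ∀ ε : ℝ, 0 < ε → ∃ n₀ : ℕ, ∀ n ≥ n₀, ∀ H : Finset (Finset (Fin n)), Lin r H →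
      Free r e H → (H.card : ℝ) ≤ (K / ((r : ℝ) ^ 2 * ((r : ℝ) - 1) ^ 2) + ε) * (n : ℝ) ^ 2) :
    ∃ N : ℕ, ∀ n ≥ N, ∀ H : Finset (Finset (Fin n)),
      (∀ A ∈ H, A.card = r) →
      (∀ x y : Fin n, x ≠ y → ∃! A, A ∈ H ∧ x ∈ A ∧ y ∈ A) →
      ∀ col : Finset (Fin n) → Fin c,
        ∃ S ⊆ H, S.card = e ∧ (S.biUnion id).card ≤ (r - 2) * e + 3 ∧
          ∃ i, ∀ A ∈ S, col A = i := by
  have hr3 : (3 : ℝ) ≤ r := by exact_mod_cast hr
  have hc1 : (1 : ℝ) ≤ c := by exact_mod_cast hc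
  set α : ℝ := K / ((r : ℝ) ^ 2 * ((r : ℝ) - 1) ^ 2) with hα
  set β : ℝ := 1 / ((r : ℝ) * ((r : ℝ) - 1)) with hβ
  have hrr : (0 : ℝ) < (r : ℝ) * ((r : ℝ) - 1) := by
    apply mul_pos <;> linarith
  have hβ0 : 0 < β := one_div_pos.2 hrr
  have hαβ : (c : ℝ) * α < β := by
    rw [hα, hβ, ← mul_div_assoc, div_lt_div_iff₀ (mul_pos (pow_pos (by linarith) 2)
      (pow_pos (by linarith) 2)) hrr]
    have e1 : (1 : ℝ) * ((r : ℝ) ^ 2 * ((r : ℝ) - 1) ^ 2) =
        (r * ((r : ℝ) - 1)) * (r * ((r : ℝ) - 1)) := by ring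
    rw [e1]
    exact mul_lt_mul_of_pos_right hrcR hrr
  set ε : ℝ := (β - c * α) / (2 * c) with hε
  have hε0 : 0 < ε := by
    rw [hε]
    apply div_pos <;> linarith
  have hcε : (c : ℝ) * ε = (β - c * α) / 2 := by
    rw [hε]
    field_simp
  obtain ⟨n₀, hn₀⟩ := hdens ε hε0
  obtain ⟨N, hN⟩ := exists_nat_gt (2 * β / (β - c * α))
  refine ⟨max n₀ (N + 1), ?_⟩
  intro n hn H hu hcomp col
  by_contra hcon
  push Not at hcon
  have hn1 : n₀ ≤ n := le_trans (le_max_left _ _) hn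
  have hn2 : N + 1 ≤ n := le_trans (le_max_right _ _) hn
  have hNn : 2 * β / (β - c * α) < n := by
    refine hN.trans_le ?_
    exact_mod_cast (by omega : N ≤ n)
  have hnpos : (0 : ℝ) < n := by
    exact_mod_cast (by omega : 0 < n)
  rw [div_lt_iff₀ (by linarith)] at hNn
  -- `H` is linear
  have hlin : ∀ A ∈ H, ∀ B ∈ H, A ≠ B → (A ∩ B).card ≤ 1 := by
    intro A hA B hB hAB
    by_contra hlt
    push Not at hlt
    obtain ⟨x, hx, y, hy, hxy⟩ := one_lt_card.1 hlt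
    obtain ⟨D, -, hD⟩ := hcomp x y hxy
    have h1 := hD A ⟨hA, (mem_inter.1 hx).1, (mem_inter.1 hy).1⟩
    have h2 := hD B ⟨hB, (mem_inter.1 hx).2, (mem_inter.1 hy).2⟩
    exact hAB (h1.trans h2.symm)
  -- the colour classes are small
  have hcls : ∀ i : Fin c, ((H.filter (fun A => col A = i)).card : ℝ) ≤
      (α + ε) * (n : ℝ) ^ 2 := by
    intro i
    apply hn₀ n hn1
    · refine ⟨fun A hA => hu A (mem_filter.1 hA).1, fun A hA B hB hAB => ?_⟩
      exact hlin A (mem_filter.1 hA).1 B (mem_filter.1 hB).1 hAB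
    · intro S hS hSe
      by_contra hlt
      push Not at hlt
      obtain ⟨A, hA, hAi⟩ := hcon S (hS.trans (filter_subset _ _)) hSe hlt i
      exact hAi (mem_filter.1 (hS hA)).2
  have hsum : (H.card : ℝ) ≤ c * ((α + ε) * (n : ℝ) ^ 2) := by
    have h1 : H.card = ∑ i : Fin c, (H.filter (fun A => col A = i)).card :=
      card_eq_sum_card_fiberwise (fun A _ => by simp)
    rw [h1]
    push_cast
    calc (∑ i : Fin c, ((H.filter (fun A => col A = i)).card : ℝ))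
        ≤ ∑ _i : Fin c, (α + ε) * (n : ℝ) ^ 2 := sum_le_sum fun i _ => hcls i
      _ = _ := by
          rw [sum_const, card_univ, Fintype.card_fin, nsmul_eq_mul]
  have hcc := card_complete hu (fun x y hxy => by
    obtain ⟨A, ⟨hA, hx, hy⟩, -⟩ := hcomp x y hxy
    exact ⟨A, hA, hx, hy⟩)
  have hcc' : (n : ℝ) * (n - 1) ≤ H.card * (r * (r - 1)) := by
    have h1 : ((n * (n - 1) : ℕ) : ℝ) ≤ ((H.card * (r * (r - 1)) : ℕ) : ℝ) := by
      exact_mod_cast hcc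
    rw [Nat.cast_mul, Nat.cast_mul, Nat.cast_mul, Nat.cast_sub (by omega : 1 ≤ n),
      Nat.cast_sub (by omega : 1 ≤ r)] at h1
    simpa using h1
  have hcc'' : β * ((n : ℝ) * (n - 1)) ≤ H.card := by
    rw [hβ, one_div, inv_mul_le_iff₀ hrr]
    linarith
  have h5 : (c : ℝ) * ((α + ε) * (n : ℝ) ^ 2) = (c * α + (β - c * α) / 2) * (n : ℝ) ^ 2 := by
    rw [← hcε]; ring
  rw [h5] at hsum
  have h6 : β * ((n : ℝ) * (n - 1)) ≤ (c * α + (β - c * α) / 2) * (n : ℝ) ^ 2 := hcc''.trans hsum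
  have h7 : 0 < (n : ℝ) * (n * (β - c * α) - 2 * β) := mul_pos hnpos (by linarith)
  nlinarith

end Pool.Agent.Helper89.SE
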