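import Pool.Agent.Helper89.SE.Base

set_option autoImplicit false

/-! General uniformity: the combinatorial inequalities. The third vertex `f v x` of
`Helper18/SF/Twin1.lean` becomes the sum over `u` with weight `C v x u`. -/

namespace Pool.Agent.Helper89.SE

open Finset Pool.Agent.Helper18.SF

variable {V : Type} [Fintype V] [DecidableEq V] {r k0 : ℕ} (S : SysE r k0 V)

/-- Change of variable. -/
theorem SysE.sum_CA (v : V) (g : V → ℝ) :
    ∑ x, ∑ u, S.C v x u * g u = ((r : ℝ) - 2) * ∑ x, S.A v x * g x := by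
  rw [sum_comm, mul_sum]
  refine sum_congr rfl fun u _ => ?_
  rw [← sum_mul, ← mul_assoc, ← S.sum_C v u]
  congr 1
  exact sum_congr rfl fun x _ => S.C_swap' v x u

omit [Fintype V] in
include S in
private theorem hr2 : (1 : ℝ) ≤ (r : ℝ) - 2 := by
  have := S.hr
  have h : (3 : ℝ) ≤ (r : ℝ) := by exact_mod_cast this
  linarith

/-- One cross sum is at most `r - 2`. -/
private theorem F_le (v x' : V) (g : V → ℝ) (c : ℝ) (hc : 0 ≤ c) (hg : ∀ u, g u ≤ c) :
    ∑ u, S.C v x' u * g u ≤ ((r : ℝ) - 2) * c := by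
  have h2 := hr2 S
  calc ∑ u, S.C v x' u * g u ≤ ∑ u, S.C v x' u * c :=
        sum_le_sum fun u _ => mul_le_mul_of_nonneg_left (hg u) (S.C_nonneg v x' u)
    _ = ((r : ℝ) - 2) * S.A v x' * c := by rw [← sum_mul, S.sum_C]
    _ ≤ ((r : ℝ) - 2) * c := by
        refine mul_le_mul_of_nonneg_right ?_ hc
        nlinarith [S.A_le_one v x']

private theorem sumC_le (v x : V) (T : Finset V) :
    ∑ u ∈ T, S.C v x u ≤ ((r : ℝ) - 2) := by
  have h2 := hr2 S
  calc ∑ u ∈ T, S.C v x u ≤ ∑ u, S.C v x u :=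
        sum_le_sum_of_subset_of_nonneg (subset_univ T) fun u _ _ => S.C_nonneg v x u
    _ = ((r : ℝ) - 2) * S.A v x := S.sum_C v x
    _ ≤ ((r : ℝ) - 2) := by nlinarith [S.A_le_one v x]

/-- The sum of the error terms. -/
private theorem err_sum (v : V) (T : Finset V) (K : ℝ) (hK : 0 ≤ K) :
    ∑ x' ∈ T, ∑ x ∈ T, S.A v x' * S.A v x *
      (k0 + K * (if x' = x then 1 else 0) + K * S.C v x' x) ≤
      k0 * (∑ x ∈ T, S.A v x) ^ 2 + K * ((r : ℝ) - 1) * ∑ x ∈ T, S.A v x := by
  have h2 := hr2 S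
  have hrow : ∀ x' ∈ T, ∑ x ∈ T, S.A v x' * S.A v x *
      (k0 + K * (if x' = x then 1 else 0) + K * S.C v x' x) ≤
      k0 * S.A v x' * (∑ x ∈ T, S.A v x) + K * ((r : ℝ) - 1) * S.A v x' := by
    intro x' hx'
    have h0 := S.A_nonneg v x'
    have h1 := S.A_le_one v x'
    have e1 : ∀ x, S.A v x' * S.A v x *
        (k0 + K * (if x' = x then 1 else 0) + K * S.C v x' x) ≤
        k0 * (S.A v x' * S.A v x) + (if x' = x then K * S.A v x' else 0) +
          K * S.A v x' * S.C v x' x := by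
      intro x
      have a0 := S.A_nonneg v x
      have a1 := S.A_le_one v x
      have c0 := S.C_nonneg v x' x
      have p1 : S.A v x' * S.A v x ≤ S.A v x' := by nlinarith
      have p0 : 0 ≤ S.A v x' * S.A v x := mul_nonneg h0 a0
      have q1 : S.A v x' * S.A v x * (K * S.C v x' x) ≤ K * S.A v x' * S.C v x' x := by
        have := mul_le_mul_of_nonneg_right p1 (mul_nonneg hK c0)
        linarith
      split_ifs with hx
      · have : S.A v x' * S.A v x * K ≤ K * S.A v x' := by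
          have := mul_le_mul_of_nonneg_right p1 hK
          linarith
        linarith
      · linarith
    calc ∑ x ∈ T, S.A v x' * S.A v x *
          (k0 + K * (if x' = x then 1 else 0) + K * S.C v x' x)
        ≤ ∑ x ∈ T, (k0 * (S.A v x' * S.A v x) + (if x' = x then K * S.A v x' else 0) +
            K * S.A v x' * S.C v x' x) := sum_le_sum fun x _ => e1 x
      _ = k0 * (S.A v x' * (∑ x ∈ T, S.A v x)) + K * S.A v x' +
            K * S.A v x' * ∑ x ∈ T, S.C v x' x := by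
          rw [sum_add_distrib, sum_add_distrib, ← mul_sum, ← mul_sum, ← mul_sum, sum_ite_eq,
            if_pos hx']
      _ ≤ k0 * S.A v x' * (∑ x ∈ T, S.A v x) + K * ((r : ℝ) - 1) * S.A v x' := by
          have := mul_le_mul_of_nonneg_left (sumC_le S v x' T) (mul_nonneg hK h0)
          linarith
  calc _ ≤ ∑ x' ∈ T, (k0 * S.A v x' * (∑ x ∈ T, S.A v x) + K * ((r : ℝ) - 1) * S.A v x') :=
        sum_le_sum hrow
    _ = _ := by
        rw [sum_add_distrib, ← sum_mul, ← mul_sum, ← mul_sum]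
        ring

theorem SysE.twin_ineq (v : V) (T : Finset V) :
    ∑ x' ∈ T, ∑ u, S.C v x' u * ∑ x ∈ T, S.A v x * S.A x u ≤
      (k0 * (∑ x ∈ T, S.A v x) ^ 2 + 2 * (r : ℝ) ^ 2 * ∑ x ∈ T, S.A v x) / 2 := by
  have h2 := hr2 S
  set F : V → V → ℝ := fun x x' => ∑ u, S.C v x' u * S.A x u with hF
  have hL : ∑ x' ∈ T, ∑ u, S.C v x' u * ∑ x ∈ T, S.A v x * S.A x u =
      ∑ x' ∈ T, ∑ x ∈ T, S.A v x' * S.A v x * F x x' := by
    refine sum_congr rfl fun x' _ => ?_
    have : ∀ x, S.A v x' * S.A v x * F x x' = ∑ u, S.C v x' u * (S.A v x * S.A x u) := by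
      intro x
      rw [hF, mul_sum]
      refine sum_congr rfl fun u _ => ?_
      rw [← S.A_mul_C v x' u]
      rcases S.h01 v x' with h | h <;> rw [h] <;> ring
    rw [sum_congr rfl fun x _ => this x, sum_comm]
    exact sum_congr rfl fun u _ => mul_sum _ _ _
  have hL' : ∑ x' ∈ T, ∑ x ∈ T, S.A v x' * S.A v x * F x x' =
      ∑ x' ∈ T, ∑ x ∈ T, S.A v x' * S.A v x * F x' x := by
    rw [sum_comm]
    exact sum_congr rfl fun x _ => sum_congr rfl fun x' _ => by ring
  have key : ∀ x' x, S.A v x' * S.A v x * (F x x' + F x' x) ≤ S.A v x' * S.A v x *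
      (k0 + 2 * (r : ℝ) * (if x' = x then 1 else 0) + 2 * (r : ℝ) * S.C v x' x) := by
    intro x' x
    have hk0 : (0 : ℝ) ≤ (k0 : ℝ) := Nat.cast_nonneg _
    rcases S.h01 v x' with h' | h'
    · rw [h']; simp
    rcases S.h01 v x with h | h
    · rw [h]; simp
    rw [h, h', one_mul, one_mul, one_mul]
    have f1 : F x x' ≤ ((r : ℝ) - 2) * 1 :=
      F_le S v x' (fun u => S.A x u) 1 zero_le_one fun u => S.A_le_one x u
    have f2 : F x' x ≤ ((r : ℝ) - 2) * 1 :=
      F_le S v x (fun u => S.A x' u) 1 zero_le_one fun u => S.A_le_one x' u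
    have c0 := S.C_nonneg v x' x
    by_cases hxx : x' = x
    · rw [if_pos hxx]
      have : 0 ≤ 2 * (r : ℝ) * S.C v x' x := by
        apply mul_nonneg _ c0
        linarith
      linarith
    rw [if_neg hxx]
    rcases S.C_h01 v x' x with hc | hc
    · have h3 := S.one v x' x h' h hxx hc
      have h4 := S.A_nonneg x' x
      have h5 : 0 ≤ ∑ u, ∑ u', S.C v x' u * (S.C v x u' * S.A u u') :=
        sum_nonneg fun u _ => sum_nonneg fun u' _ =>
          mul_nonneg (S.C_nonneg _ _ _) (mul_nonneg (S.C_nonneg _ _ _) (S.A_nonneg _ _))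
      have h6 : ∑ u, S.C v x' u * S.A u x = F x x' :=
        sum_congr rfl fun u _ => by rw [S.symm u x]
      have h7 : ∑ u, S.C v x u * S.A x' u = F x' x := rfl
      rw [h6, h7] at h3
      rw [hc]
      linarith
    · rw [hc]
      linarith
  have hsum : ∑ x' ∈ T, ∑ x ∈ T, S.A v x' * S.A v x * (F x x' + F x' x) ≤
      k0 * (∑ x ∈ T, S.A v x) ^ 2 + 2 * (r : ℝ) * ((r : ℝ) - 1) * ∑ x ∈ T, S.A v x :=
    (sum_le_sum fun x' _ => sum_le_sum fun x _ => key x' x).trans
      (err_sum S v T (2 * (r : ℝ)) (by linarith))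
  have hsplit : ∑ x' ∈ T, ∑ x ∈ T, S.A v x' * S.A v x * (F x x' + F x' x) =
      2 * ∑ x' ∈ T, ∑ x ∈ T, S.A v x' * S.A v x * F x x' := by
    simp only [mul_add, sum_add_distrib]
    rw [← hL']
    ring
  rw [hsplit] at hsum
  rw [hL]
  have hd : 0 ≤ ∑ x ∈ T, S.A v x := sum_nonneg fun x _ => S.A_nonneg v x
  have hr0 : (0 : ℝ) ≤ r := Nat.cast_nonneg r
  nlinarith [mul_nonneg hr0 hd]

end Pool.Agent.Helper89.SE
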