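import Pool.Agent.Helper89.SE.Base

set_option autoImplicit false

/-! General uniformity: the error term of the twin step. Adapt `Helper18/SF/Twin2.lean`:
`S.A v x * |dev S Z x v|` becomes `∑ u, S.C v x u * |dev S Z x v u|`; `dev_split` there is already
stated for `A, x, u, v` (private: copy). In `cell_moment`
`∑_{x'} ∑_v ∑_u C v x' u R v u = (r - 2) ∑_v ∑_u A v u R v u ≤ r ∑∑ R` (`sum_C` after `C_swap`);
in the second part `∑_u C v x u ≤ r`. -/

namespace Pool.Agent.Helper89.SE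

open Finset Pool.Agent.Helper18.SF

variable {V : Type} [Fintype V] [DecidableEq V] {r k0 : ℕ}

/-- Deviation of the codegree of `v` and `u` in the cell of `x`. -/
noncomputable def dev (S : SysE r k0 V) (Z : Finset V) (x v u : V) : ℝ :=
  ∑ z ∈ cel (pat S.A Z) x, S.A v z * S.A u z -
    ((cel (pat S.A Z) x).card : ℝ) * w S.A Z x v * w S.A Z x u

/-- The codegree deviation splits orthogonally over the two partitions. -/
private lemma dev_split (A : V → V → ℝ) {Z Z' : Finset V} (hZ : Z ⊆ Z') (x u v : V) :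
    ∑ z ∈ cel (pat A Z) x, A v z * A u z -
        ((cel (pat A Z) x).card : ℝ) * w A Z x v * w A Z x u =
      ∑ z ∈ cel (pat A Z) x,
        (A v z - ce (pat A Z') (A v) z) * (A u z - ce (pat A Z') (A u) z) +
      ∑ z ∈ cel (pat A Z) x,
        (ce (pat A Z') (A v) z - ce (pat A Z) (A v) z) *
          (ce (pat A Z') (A u) z - ce (pat A Z) (A u) z) := by
  have hT : ∀ z z', pat A Z z = pat A Z z' → (z ∈ cel (pat A Z) x ↔ z' ∈ cel (pat A Z) x) := by
    intro z z' h
    rw [mem_cel, mem_cel, h]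
  have hT' : ∀ z z', pat A Z' z = pat A Z' z' →
      (z ∈ cel (pat A Z) x ↔ z' ∈ cel (pat A Z) x) :=
    fun z z' h => hT z z' (pat_refine A hZ z z' h)
  have h1 := corr_expand A Z (cel (pat A Z) x) hT u v
  have h2 : ∑ z ∈ cel (pat A Z) x, ce (pat A Z) (A v) z * ce (pat A Z) (A u) z =
      ((cel (pat A Z) x).card : ℝ) * w A Z x v * w A Z x u := by
    rw [Finset.sum_congr rfl (g := fun _ => w A Z x v * w A Z x u)]
    · rw [Finset.sum_const, nsmul_eq_mul, mul_assoc]
    · intro z hz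
      rw [mem_cel] at hz
      unfold w
      rw [ce_congr hz, ce_congr hz]
  have hcross : ∀ a b : V, ∑ z ∈ cel (pat A Z) x, (A a z - ce (pat A Z') (A a) z) *
      (ce (pat A Z') (A b) z - ce (pat A Z) (A b) z) = 0 := by
    intro a b
    have h := sum_ce_mul_on (pat A Z') (A a)
      (fun z => ce (pat A Z') (A b) z - ce (pat A Z) (A b) z)
      (fun z z' hzz => by
        show ce (pat A Z') (A b) z - ce (pat A Z) (A b) z =
          ce (pat A Z') (A b) z' - ce (pat A Z) (A b) z'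
        rw [ce_congr hzz, ce_congr (pat_refine A hZ z z' hzz)])
      (cel (pat A Z) x) hT'
    simp only [sub_mul]
    rw [Finset.sum_sub_distrib, ← h, sub_self]
  have h3 : ∑ z ∈ cel (pat A Z) x, (A v z - ce (pat A Z) (A v) z) *
      (A u z - ce (pat A Z) (A u) z) =
      ∑ z ∈ cel (pat A Z) x,
        (A v z - ce (pat A Z') (A v) z) * (A u z - ce (pat A Z') (A u) z) +
      ∑ z ∈ cel (pat A Z) x,
        (ce (pat A Z') (A v) z - ce (pat A Z) (A v) z) *
          (ce (pat A Z') (A u) z - ce (pat A Z) (A u) z) := by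
    have e1 := hcross v u
    have e2 := hcross u v
    rw [← Finset.sum_add_distrib]
    rw [← sub_eq_zero, ← Finset.sum_sub_distrib]
    calc _ = ∑ z ∈ cel (pat A Z) x, ((A v z - ce (pat A Z') (A v) z) *
          (ce (pat A Z') (A u) z - ce (pat A Z) (A u) z) + (A u z - ce (pat A Z') (A u) z) *
          (ce (pat A Z') (A v) z - ce (pat A Z) (A v) z)) :=
          Finset.sum_congr rfl (fun z _ => by ring)
      _ = 0 := by rw [Finset.sum_add_distrib, e1, e2, add_zero]
  rw [← h3, h1, Finset.sum_sub_distrib, h2]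

/-- The sum of the weights. -/
private lemma sum_C_le (S : SysE r k0 V) (x y : V) : ∑ u, S.C x y u ≤ (r : ℝ) := by
  rw [S.sum_C]
  have h1 := S.A_le_one x y
  have h0 := S.A_nonneg x y
  have h3 : (3 : ℝ) ≤ r := by exact_mod_cast S.hr
  nlinarith

private lemma sum_C_le' (S : SysE r k0 V) (x y : V) : ∑ u, S.C x u y ≤ (r : ℝ) := by
  have h : ∀ u, S.C x u y = S.C x y u := fun u => S.C_swap' x u y
  simp only [h]
  exact sum_C_le S x y

/-- The second moment of the correlations over one cell. -/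
private lemma cell_moment (S : SysE r k0 V) (Z' : Finset V) (T : Finset V) (Q : Finset V) (θ : ℝ)
    (hT : ∀ z z', pat S.A Z' z = pat S.A Z' z' → (z ∈ T ↔ z' ∈ T))
    (h1 : ∀ u, q S.A (insert u Z') - q S.A Z' ≤ θ * (Fintype.card V : ℝ) ^ 2) :
    ∑ x' ∈ Q, ∑ v, ∑ u, S.C v x' u * (∑ z ∈ T, (S.A v z - ce (pat S.A Z') (S.A v) z) *
        (S.A u z - ce (pat S.A Z') (S.A u) z)) ^ 2 ≤
      (r : ℝ) * ((T.card : ℝ) * (θ * (Fintype.card V : ℝ) ^ 3)) := by
  set R : V → V → ℝ := fun v u => (∑ z ∈ T, (S.A v z - ce (pat S.A Z') (S.A v) z) *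
        (S.A u z - ce (pat S.A Z') (S.A u) z)) ^ 2 with hR
  have hR0 : ∀ v u, 0 ≤ R v u := fun v u => sq_nonneg _
  calc ∑ x' ∈ Q, ∑ v, ∑ u, S.C v x' u * R v u
      ≤ ∑ x', ∑ v, ∑ u, S.C v x' u * R v u :=
        Finset.sum_le_sum_of_subset_of_nonneg (Finset.subset_univ _)
          (fun x' _ _ => Finset.sum_nonneg (fun v _ => Finset.sum_nonneg
            (fun u _ => mul_nonneg (S.C_nonneg v x' u) (hR0 v _))))
    _ = ∑ v, ∑ u, (∑ x', S.C v x' u) * R v u := by
        rw [Finset.sum_comm]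
        refine Finset.sum_congr rfl (fun v _ => ?_)
        rw [Finset.sum_comm]
        exact Finset.sum_congr rfl (fun u _ => (Finset.sum_mul _ _ _).symm)
    _ ≤ ∑ v, ∑ u, (r : ℝ) * R v u :=
        Finset.sum_le_sum (fun v _ => Finset.sum_le_sum (fun u _ =>
          mul_le_mul_of_nonneg_right (sum_C_le' S v u) (hR0 v u)))
    _ = (r : ℝ) * ∑ u, ∑ v, R v u := by
        rw [Finset.sum_comm, Finset.mul_sum]
        exact Finset.sum_congr rfl (fun u _ => (Finset.mul_sum _ _ _).symm)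
    _ ≤ (r : ℝ) * ∑ _u : V, (T.card : ℝ) * (θ * (Fintype.card V : ℝ) ^ 2) :=
        mul_le_mul_of_nonneg_left
          (Finset.sum_le_sum (fun u _ => (corr S.A S.h01 Z' T hT u).trans
            (mul_le_mul_of_nonneg_left (h1 u) (Nat.cast_nonneg _)))) (Nat.cast_nonneg _)
    _ = (r : ℝ) * ((T.card : ℝ) * (θ * (Fintype.card V : ℝ) ^ 3)) := by
        rw [Finset.sum_const, nsmul_eq_mul, Finset.card_univ]
        ring

/-- Cauchy-Schwarz with weights for a double sum. -/
private lemma cs_double {α β : Type} [Fintype α] [Fintype β] (a r : α → β → ℝ)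
    (ha : ∀ x v, 0 ≤ a x v) :
    (∑ x, ∑ v, a x v * |r x v|) ^ 2 ≤ (∑ x, ∑ v, a x v) * ∑ x, ∑ v, a x v * r x v ^ 2 := by
  have h := Finset.sum_sq_le_sum_mul_sum_of_sq_le_mul (univ : Finset (α × β))
    (r := fun p => a p.1 p.2 * |r p.1 p.2|) (f := fun p => a p.1 p.2)
    (g := fun p => a p.1 p.2 * r p.1 p.2 ^ 2)
    (fun p _ => ha _ _) (fun p _ => mul_nonneg (ha _ _) (sq_nonneg _))
    (fun p _ => le_of_eq (by
      show (a p.1 p.2 * |r p.1 p.2|) ^ 2 = a p.1 p.2 * (a p.1 p.2 * r p.1 p.2 ^ 2)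
      rw [mul_pow, sq_abs]
      ring))
  simpa only [Fintype.sum_prod_type] using h

omit [DecidableEq V] in
/-- Cauchy-Schwarz with weights for a triple sum. -/
private lemma cs_triple (a r : V → V → V → ℝ) (ha : ∀ x v u, 0 ≤ a x v u) :
    (∑ x, ∑ v, ∑ u, a x v u * |r x v u|) ^ 2 ≤
      (∑ x, ∑ v, ∑ u, a x v u) * ∑ x, ∑ v, ∑ u, a x v u * r x v u ^ 2 := by
  have h := cs_double (α := V) (β := V × V) (fun x p => a x p.1 p.2) (fun x p => r x p.1 p.2)
    (fun x p => ha x _ _)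
  simpa only [Fintype.sum_prod_type] using h

theorem dev_bound (S : SysE r k0 V) (Z Z' : Finset V) (hZ : Z ⊆ Z') (ε θ : ℝ) (hε : 0 ≤ ε)
    (hθ : 0 ≤ θ)
    (h1 : ∀ u, q S.A (insert u Z') - q S.A Z' ≤ θ * (Fintype.card V : ℝ) ^ 2)
    (h2 : q S.A Z' - q S.A Z ≤ ε * (Fintype.card V : ℝ) ^ 2) :
    ∑ x, (1 / ((cel (pat S.A Z) x).card : ℝ)) * ∑ v, ∑ u, S.C v x u * |dev S Z x v u| ≤
      (r : ℝ) * (2 ^ Z.card * Real.sqrt θ + 2 * Real.sqrt ε) * (Fintype.card V : ℝ) ^ 2 := by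
  have hr0 : (0 : ℝ) ≤ r := Nat.cast_nonneg r
  set n : ℝ := (Fintype.card V : ℝ) with hn
  have hn0 : 0 ≤ n := Nat.cast_nonneg _
  set c := pat S.A Z with hc
  set c' := pat S.A Z' with hc'
  set φ : V → ℝ := fun x => 1 / ((cel c x).card : ℝ) with hφ
  have hφ0 : ∀ x, 0 ≤ φ x := fun x => by positivity
  have hφc : ∀ z z', c z = c z' → φ z = φ z' := by
    intro z z' h
    show 1 / ((cel c z).card : ℝ) = 1 / ((cel c z').card : ℝ)
    rw [cel_congr h]
  set D : V → V → ℝ := fun v z => ce c' (S.A v) z - ce c (S.A v) z with hD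
  set R : V → V → V → ℝ := fun x v u => ∑ z ∈ cel c x, (S.A v z - ce c' (S.A v) z) *
        (S.A u z - ce c' (S.A u) z) with hR
  have hK : ∑ x, φ x ≤ 2 ^ Z.card := by
    have h := sum_inv_card c
    show ∑ x, 1 / ((cel c x).card : ℝ) ≤ 2 ^ Z.card
    rw [h]
    exact card_pat_le S.A Z
  have hK0 : 0 ≤ ∑ x, φ x := Finset.sum_nonneg (fun x _ => hφ0 x)
  -- pointwise bound
  have hD1 : ∀ u z, |D u z| ≤ 1 := by
    intro u z
    have a1 := ce_nonneg c' (S.A u) (S.A_nonneg u) z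
    have a2 := ce_le_one c' (S.A u) (S.A_le_one u) z
    have a3 := ce_nonneg c (S.A u) (S.A_nonneg u) z
    have a4 := ce_le_one c (S.A u) (S.A_le_one u) z
    rw [abs_le]
    constructor <;> simp only [hD] <;> linarith
  have hpt : ∀ x v u, |dev S Z x v u| ≤ |R x v u| + ∑ z ∈ cel c x, |D v z| := by
    intro x v u
    have e : dev S Z x v u = R x v u + ∑ z ∈ cel c x, D v z * D u z :=
      dev_split S.A hZ x u v
    rw [e]
    refine (abs_add_le _ _).trans (add_le_add le_rfl ?_)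
    refine (Finset.abs_sum_le_sum_abs _ _).trans (Finset.sum_le_sum (fun z _ => ?_))
    rw [abs_mul]
    exact mul_le_of_le_one_right (abs_nonneg _) (hD1 _ _)
  -- first part
  have hX1 : ∑ x, φ x * ∑ v, ∑ u, S.C v x u * |R x v u| ≤
      (r : ℝ) * (2 ^ Z.card * Real.sqrt θ * n ^ 2) := by
    have hcs := cs_triple (V := V) (fun x v u => φ x * S.C v x u) R
      (fun x v u => mul_nonneg (hφ0 x) (S.C_nonneg v x u))
    have e1 : ∑ x, ∑ v, ∑ u, φ x * S.C v x u * |R x v u| =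
        ∑ x, φ x * ∑ v, ∑ u, S.C v x u * |R x v u| := by
      refine Finset.sum_congr rfl (fun x _ => ?_)
      rw [Finset.mul_sum]
      refine Finset.sum_congr rfl (fun v _ => ?_)
      rw [Finset.mul_sum]
      exact Finset.sum_congr rfl (fun u _ => by ring)
    have e2 : ∑ x, ∑ v, ∑ u, φ x * S.C v x u ≤ (r : ℝ) * (2 ^ Z.card * n) := by
      calc ∑ x, ∑ v, ∑ u, φ x * S.C v x u ≤ ∑ x, ∑ _v : V, φ x * (r : ℝ) :=
            Finset.sum_le_sum (fun x _ => Finset.sum_le_sum (fun v _ => by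
              rw [← Finset.mul_sum]
              exact mul_le_mul_of_nonneg_left (sum_C_le S v x) (hφ0 x)))
        _ = (r : ℝ) * ((∑ x, φ x) * n) := by
            rw [Finset.sum_mul, Finset.mul_sum]
            refine Finset.sum_congr rfl (fun x _ => ?_)
            rw [Finset.sum_const, nsmul_eq_mul, Finset.card_univ]
            ring
        _ ≤ (r : ℝ) * (2 ^ Z.card * n) :=
            mul_le_mul_of_nonneg_left (mul_le_mul_of_nonneg_right hK hn0) hr0
    have e3 : ∑ x, ∑ v, ∑ u, φ x * S.C v x u * R x v u ^ 2 ≤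
        (r : ℝ) * (2 ^ Z.card * (θ * n ^ 3)) := by
      set G : V → ℝ := fun x => ∑ v, ∑ u, S.C v x u * R x v u ^ 2 with hG
      have g1 : ∑ x, ∑ v, ∑ u, φ x * S.C v x u * R x v u ^ 2 = ∑ x, G x * φ x := by
        refine Finset.sum_congr rfl (fun x _ => ?_)
        rw [mul_comm, Finset.mul_sum]
        refine Finset.sum_congr rfl (fun v _ => ?_)
        rw [Finset.mul_sum]
        exact Finset.sum_congr rfl (fun u _ => by ring)
      rw [g1, ← sum_ce_mul c G φ hφc]
      have g2 : ∀ x, ce c G x ≤ (r : ℝ) * (θ * n ^ 3) := by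
        intro x
        unfold ce
        rw [div_le_iff₀ (cel_card_pos c x)]
        have hT' : ∀ z z', c' z = c' z' → (z ∈ cel c x ↔ z' ∈ cel c x) := by
          intro z z' h
          rw [mem_cel, mem_cel, hc, pat_refine S.A hZ z z' h]
        have g3 := cell_moment S Z' (cel c x) (cel c x) θ hT' h1
        calc ∑ x' ∈ cel c x, G x' = ∑ x' ∈ cel c x, ∑ v, ∑ u, S.C v x' u *
              (∑ z ∈ cel c x, (S.A v z - ce (pat S.A Z') (S.A v) z) *
              (S.A u z - ce (pat S.A Z') (S.A u) z)) ^ 2 := by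
              refine Finset.sum_congr rfl (fun x' hx' => ?_)
              rw [mem_cel] at hx'
              simp only [hG, hR]
              rw [cel_congr hx']
          _ ≤ _ := g3
          _ = (r : ℝ) * (θ * n ^ 3) * ((cel c x).card : ℝ) := by ring
      calc ∑ x, ce c G x * φ x ≤ ∑ x, ((r : ℝ) * (θ * n ^ 3)) * φ x :=
            Finset.sum_le_sum (fun x _ => mul_le_mul_of_nonneg_right (g2 x) (hφ0 x))
        _ = (r : ℝ) * ((∑ x, φ x) * (θ * n ^ 3)) := by
            rw [← Finset.mul_sum]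
            ring
        _ ≤ (r : ℝ) * (2 ^ Z.card * (θ * n ^ 3)) :=
            mul_le_mul_of_nonneg_left (mul_le_mul_of_nonneg_right hK (by positivity)) hr0
    rw [← e1]
    have hpos : 0 ≤ (r : ℝ) * (2 ^ Z.card * Real.sqrt θ * n ^ 2) := by positivity
    refine abs_le_of_sq_le_sq' ?_ hpos |>.2
    calc (∑ x, ∑ v, ∑ u, φ x * S.C v x u * |R x v u|) ^ 2
        ≤ (∑ x, ∑ v, ∑ u, φ x * S.C v x u) *
            ∑ x, ∑ v, ∑ u, φ x * S.C v x u * R x v u ^ 2 := hcs
      _ ≤ ((r : ℝ) * (2 ^ Z.card * n)) * ((r : ℝ) * (2 ^ Z.card * (θ * n ^ 3))) :=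
          mul_le_mul e2 e3 (Finset.sum_nonneg (fun x _ => Finset.sum_nonneg (fun v _ =>
            Finset.sum_nonneg (fun u _ =>
            mul_nonneg (mul_nonneg (hφ0 x) (S.C_nonneg v x u)) (sq_nonneg _))))) (by positivity)
      _ = (r : ℝ) ^ 2 * ((2 ^ Z.card) ^ 2 * (Real.sqrt θ) ^ 2 * (n ^ 2) ^ 2) := by
          rw [Real.sq_sqrt hθ]
          ring
      _ = ((r : ℝ) * (2 ^ Z.card * Real.sqrt θ * n ^ 2)) ^ 2 := by ring
  -- second part
  have hX2 : ∑ x, φ x * ∑ v, ∑ u, S.C v x u * ∑ z ∈ cel c x, |D v z| ≤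
      (r : ℝ) * (Real.sqrt ε * n ^ 2) := by
    have f1 : ∑ x, φ x * ∑ v, ∑ u, S.C v x u * ∑ z ∈ cel c x, |D v z| ≤
        (r : ℝ) * ∑ v, ∑ z, |D v z| := by
      calc ∑ x, φ x * ∑ v, ∑ u, S.C v x u * ∑ z ∈ cel c x, |D v z|
          ≤ ∑ x, φ x * ∑ v, (r : ℝ) * ∑ z ∈ cel c x, |D v z| :=
            Finset.sum_le_sum (fun x _ => mul_le_mul_of_nonneg_left
              (Finset.sum_le_sum (fun v _ => by
                rw [← Finset.sum_mul]
                exact mul_le_mul_of_nonneg_right (sum_C_le S v x)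
                  (Finset.sum_nonneg (fun z _ => abs_nonneg _)))) (hφ0 x))
        _ = (r : ℝ) * ∑ x, ∑ v, ce c (fun z => |D v z|) x := by
            rw [Finset.mul_sum]
            refine Finset.sum_congr rfl (fun x _ => ?_)
            rw [Finset.mul_sum, Finset.mul_sum]
            refine Finset.sum_congr rfl (fun v _ => ?_)
            simp only [hφ, ce]
            ring
        _ = (r : ℝ) * ∑ v, ∑ x, ce c (fun z => |D v z|) x := by rw [Finset.sum_comm]
        _ = (r : ℝ) * ∑ v, ∑ z, |D v z| := by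
            rw [Finset.sum_congr rfl (fun v _ => sum_ce c _)]
    refine f1.trans (mul_le_mul_of_nonneg_left ?_ hr0)
    have hcs := cs_double (α := V) (β := V) (fun _ _ => 1) D (fun _ _ => zero_le_one)
    simp only [one_mul] at hcs
    have hq : ∑ v, ∑ z, D v z ^ 2 ≤ ε * n ^ 2 := by
      have := q_sub S.A hZ
      rw [← this]
      exact h2
    refine abs_le_of_sq_le_sq' ?_ (by positivity) |>.2
    calc (∑ v, ∑ z, |D v z|) ^ 2 ≤ (∑ _x : V, ∑ _v : V, (1 : ℝ)) * ∑ v, ∑ z, D v z ^ 2 := hcs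
      _ ≤ n ^ 2 * (ε * n ^ 2) := by
          have : (∑ _x : V, ∑ _v : V, (1 : ℝ)) = n ^ 2 := by
            simp [hn, sq]
          rw [this]
          exact mul_le_mul_of_nonneg_left hq (by positivity)
      _ = (Real.sqrt ε) ^ 2 * (n ^ 2) ^ 2 := by
          rw [Real.sq_sqrt hε]
          ring
      _ = (Real.sqrt ε * n ^ 2) ^ 2 := by ring
  calc ∑ x, φ x * ∑ v, ∑ u, S.C v x u * |dev S Z x v u|
      ≤ ∑ x, (φ x * ∑ v, ∑ u, S.C v x u * |R x v u| +
          φ x * ∑ v, ∑ u, S.C v x u * ∑ z ∈ cel c x, |D v z|) := by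
        refine Finset.sum_le_sum (fun x _ => ?_)
        rw [← mul_add, ← Finset.sum_add_distrib]
        refine mul_le_mul_of_nonneg_left (Finset.sum_le_sum (fun v _ => ?_)) (hφ0 x)
        rw [← Finset.sum_add_distrib]
        refine Finset.sum_le_sum (fun u _ => ?_)
        rw [← mul_add]
        exact mul_le_mul_of_nonneg_left (hpt x v u) (S.C_nonneg v x u)
    _ = ∑ x, φ x * ∑ v, ∑ u, S.C v x u * |R x v u| +
          ∑ x, φ x * ∑ v, ∑ u, S.C v x u * ∑ z ∈ cel c x, |D v z| := Finset.sum_add_distrib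
    _ ≤ (r : ℝ) * (2 ^ Z.card * Real.sqrt θ * n ^ 2) + (r : ℝ) * (Real.sqrt ε * n ^ 2) :=
        add_le_add hX1 hX2
    _ ≤ (r : ℝ) * (2 ^ Z.card * Real.sqrt θ + 2 * Real.sqrt ε) * n ^ 2 := by
        have : 0 ≤ (r : ℝ) * (Real.sqrt ε * n ^ 2) := by positivity
        linarith

end Pool.Agent.Helper89.SE
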