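import Pool.Agent.Helper89.SE.Twin1
import Pool.Agent.Helper89.SE.Twin2

set_option autoImplicit false

/-! General uniformity, at most `k0` cross pairs: the energy of typical cells is at most
`k0 / (2 (r - 2))` times their degree. Compare `Helper18/SF/Twin3.lean`. -/

namespace Pool.Agent.Helper89.SE

open Finset Pool.Agent.Helper18.SF

variable {V : Type} [Fintype V] [DecidableEq V] {r k0 : ℕ}

theorem w_nonneg (S : SysE r k0 V) (Z : Finset V) (x v : V) : 0 ≤ w S.A Z x v :=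
  ce_nonneg _ _ (fun z => S.A_nonneg v z) _

theorem w_le_one (S : SysE r k0 V) (Z : Finset V) (x v : V) : w S.A Z x v ≤ 1 :=
  ce_le_one _ _ (fun z => S.A_le_one v z) _

/-- one vertex and one cell -/
theorem cell_ineq (S : SysE r k0 V) (Z : Finset V) {κ : ℝ} (hκ : 0 < κ) (x v : V) :
    ∑ x' ∈ cel (pat S.A Z) x, ∑ u, S.C v x' u * w S.A Z x u ≤
      ((k0 : ℝ) / 2) * (((cel (pat S.A Z) x).card : ℝ) * w S.A Z x v) + (r : ℝ) ^ 2 +
        (1 / (κ * ((cel (pat S.A Z) x).card : ℝ))) *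
          ∑ x' ∈ cel (pat S.A Z) x, ∑ u, S.C v x' u * |dev S Z x' v u| +
        (r : ℝ) * (κ * ((cel (pat S.A Z) x).card : ℝ)) := by
  have hr3 : (3 : ℝ) ≤ (r : ℝ) := by exact_mod_cast S.hr
  have hk0 : (0 : ℝ) ≤ (k0 : ℝ) := Nat.cast_nonneg _
  set C := cel (pat S.A Z) x with hC
  set m : ℝ := (C.card : ℝ) with hm
  have hm0 : 0 < m := cel_card_pos (pat S.A Z) x
  set d : ℝ := ∑ x' ∈ C, S.A v x' with hd
  have hdw : d = m * w S.A Z x v := (card_mul_ce (pat S.A Z) (S.A v) x).symm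
  set R : ℝ := ∑ x' ∈ C, ∑ u, S.C v x' u * w S.A Z x u with hR
  set D : ℝ := ∑ x' ∈ C, ∑ u, S.C v x' u * |dev S Z x' v u| with hD
  have hD0 : 0 ≤ D := sum_nonneg fun x' _ => sum_nonneg fun u _ =>
    mul_nonneg (S.C_nonneg _ _ _) (abs_nonneg _)
  have hd0 : 0 ≤ d := sum_nonneg fun x' _ => S.A_nonneg _ _
  have hRd : R ≤ (r : ℝ) * d := by
    rw [hd, mul_sum]
    apply sum_le_sum
    intro x' _
    calc ∑ u, S.C v x' u * w S.A Z x u ≤ ∑ u, S.C v x' u :=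
          sum_le_sum fun u _ => mul_le_of_le_one_right (S.C_nonneg _ _ _) (w_le_one S Z _ _)
      _ = ((r : ℝ) - 2) * S.A v x' := S.sum_C v x'
      _ ≤ (r : ℝ) * S.A v x' := mul_le_mul_of_nonneg_right (by linarith) (S.A_nonneg _ _)
  -- the twin inequality
  have h1 := S.twin_ineq v C
  have h2 : ∀ x' ∈ C, ∀ u, ∑ z ∈ C, S.A v z * S.A z u =
      dev S Z x' v u + d * w S.A Z x u := by
    intro x' hx' u
    have e : pat S.A Z x' = pat S.A Z x := mem_cel.1 hx'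
    have e1 : cel (pat S.A Z) x' = C := cel_congr e
    have e2 : ∀ y, w S.A Z x' y = w S.A Z x y := fun y => ce_congr e
    unfold dev
    rw [e1, e2, e2, ← hm, hdw]
    have e3 : ∑ z ∈ C, S.A v z * S.A z u = ∑ z ∈ C, S.A v z * S.A u z :=
      sum_congr rfl fun z _ => by rw [S.symm z]
    rw [e3]
    ring
  have h3 : ∑ x' ∈ C, ∑ u, S.C v x' u * ∑ z ∈ C, S.A v z * S.A z u =
      ∑ x' ∈ C, ∑ u, S.C v x' u * dev S Z x' v u + d * R := by
    rw [hR, mul_sum, ← sum_add_distrib]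
    apply sum_congr rfl
    intro x' hx'
    rw [mul_sum, ← sum_add_distrib]
    apply sum_congr rfl
    intro u _
    rw [h2 x' hx' u]
    ring
  have h4 : -D ≤ ∑ x' ∈ C, ∑ u, S.C v x' u * dev S Z x' v u := by
    rw [hD, ← sum_neg_distrib]
    apply sum_le_sum
    intro x' _
    rw [← sum_neg_distrib]
    apply sum_le_sum
    intro u _
    rw [← mul_neg]
    exact mul_le_mul_of_nonneg_left (neg_abs_le _) (S.C_nonneg _ _ _)
  have h5 : d * R ≤ (k0 * d ^ 2 + 2 * (r : ℝ) ^ 2 * d) / 2 + D := by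
    rw [h3] at h1
    linarith
  rw [← hdw]
  have hp : 0 ≤ 1 / (κ * m) * D := by positivity
  rcases le_total (κ * m) d with h | h
  · have hd1 : 0 < d := lt_of_lt_of_le (by positivity) h
    have h6 : R ≤ (k0 : ℝ) / 2 * d + (r : ℝ) ^ 2 + D / d := by
      have : (k0 : ℝ) / 2 * d + (r : ℝ) ^ 2 + D / d =
          ((k0 * d ^ 2 + 2 * (r : ℝ) ^ 2 * d) / 2 + D) / d := by
        field_simp
      rw [this, le_div_iff₀ hd1]
      linarith
    have h7 : D / d ≤ 1 / (κ * m) * D := by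
      rw [div_eq_mul_one_div, mul_comm]
      apply mul_le_mul_of_nonneg_right _ hD0
      exact one_div_le_one_div_of_le (by positivity) h
    have : 0 ≤ (r : ℝ) * (κ * m) := by positivity
    linarith
  · have h8 : (r : ℝ) * d ≤ (r : ℝ) * (κ * m) := mul_le_mul_of_nonneg_left h (by linarith)
    have h9 : 0 ≤ (k0 : ℝ) / 2 * d := by positivity
    have h10 : 0 ≤ (r : ℝ) ^ 2 := by positivity
    linarith

/-- the sum over `v` of the left side -/
theorem cell_lhs (S : SysE r k0 V) (Z : Finset V) (x : V) :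
    ∑ v, ∑ x' ∈ cel (pat S.A Z) x, ∑ u, S.C v x' u * w S.A Z x u =
      ((r : ℝ) - 2) * (((cel (pat S.A Z) x).card : ℝ) * ∑ v, (w S.A Z x v) ^ 2) := by
  rw [sum_comm]
  have h1 : ∀ x' ∈ cel (pat S.A Z) x, ∑ v, ∑ u, S.C v x' u * w S.A Z x u =
      ((r : ℝ) - 2) * ∑ u, S.A u x' * w S.A Z x u := by
    intro x' _
    rw [sum_comm, mul_sum]
    refine sum_congr rfl fun u _ => ?_
    rw [← sum_mul, ← mul_assoc, S.symm u x', ← S.sum_C x' u]
    congr 1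
    exact sum_congr rfl fun v _ => by rw [S.C_swap v x' u, S.C_swap' x' v u]
  rw [sum_congr rfl h1, ← mul_sum]
  congr 1
  rw [sum_comm, mul_sum]
  apply sum_congr rfl
  intro u _
  rw [← sum_mul, ← card_mul_ce (pat S.A Z) (S.A u) x, pow_two]
  unfold w
  ring

theorem twin (S : SysE r k0 V) (Z : Finset V) (κ X : ℝ) (hκ : 0 < κ)
    (hX : ∑ x, (1 / ((cel (pat S.A Z) x).card : ℝ)) * ∑ v, ∑ u, S.C v x u * |dev S Z x v u| ≤ X)
    (l : V → ℝ) (hl0 : ∀ x, 0 ≤ l x) (L : ℝ) (hL : 0 ≤ L) (hl1 : ∀ x, l x ≤ L)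
    (hlc : ∀ x x', pat S.A Z x = pat S.A Z x' → l x = l x') :
    ∑ x, l x * ∑ y, (w S.A Z x y) ^ 2 ≤
      ((k0 : ℝ) / (2 * ((r : ℝ) - 2))) * ∑ x, l x * ∑ y, w S.A Z x y +
      L * ((r : ℝ) ^ 2 * (Fintype.card V : ℝ) * 2 ^ Z.card + r * κ * (Fintype.card V : ℝ) ^ 2 +
        X / κ) := by
  have hr3 : (3 : ℝ) ≤ (r : ℝ) := by exact_mod_cast S.hr
  have hk0 : (0 : ℝ) ≤ (k0 : ℝ) := Nat.cast_nonneg _
  set n : ℝ := (Fintype.card V : ℝ) with hn
  have hn0 : 0 ≤ n := Nat.cast_nonneg _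
  set m : V → ℝ := fun x => ((cel (pat S.A Z) x).card : ℝ) with hm
  have hm0 : ∀ x, 0 < m x := fun x => cel_card_pos (pat S.A Z) x
  set D : V → ℝ := fun x' => ∑ v, ∑ u, S.C v x' u * |dev S Z x' v u| with hD
  have hD0 : ∀ x, 0 ≤ D x := fun x => sum_nonneg fun v _ => sum_nonneg fun u _ =>
    mul_nonneg (S.C_nonneg _ _ _) (abs_nonneg _)
  obtain ⟨ρ, hρ⟩ : ∃ ρ : ℝ, ρ = (r : ℝ) - 2 := ⟨_, rfl⟩
  have hρ1 : 1 ≤ ρ := by rw [hρ]; linarith
  have hce0 : ∀ x, 0 ≤ ce (pat S.A Z) D x := fun x => ce_nonneg _ _ hD0 x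
  -- one cell
  have h1 : ∀ x, ∑ y, (w S.A Z x y) ^ 2 ≤ ((k0 : ℝ) / (2 * ρ)) * ∑ y, w S.A Z x y +
      (r : ℝ) ^ 2 * n * (1 / m x) +
      (1 / κ) * (ce (pat S.A Z) D x * (1 / m x)) + (r : ℝ) * κ * n := by
    intro x
    have h2 := sum_le_sum fun v (_ : v ∈ (univ : Finset V)) => cell_ineq S Z hκ x v
    rw [cell_lhs S Z x, sum_add_distrib, sum_add_distrib, sum_add_distrib, ← mul_sum, ← mul_sum,
      ← mul_sum, sum_const, sum_const, card_univ, nsmul_eq_mul, nsmul_eq_mul, ← hn,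
      sum_comm (s := (univ : Finset V)) (t := cel (pat S.A Z) x), ← hρ] at h2
    change ρ * (m x * _) ≤ (k0 : ℝ) / 2 * (m x * _) + n * (r : ℝ) ^ 2 + 1 / (κ * m x) *
      ∑ x' ∈ cel (pat S.A Z) x, D x' + n * ((r : ℝ) * (κ * m x)) at h2
    rw [← card_mul_ce (pat S.A Z) D x] at h2
    change ρ * (m x * _) ≤ (k0 : ℝ) / 2 * (m x * _) + n * (r : ℝ) ^ 2 + 1 / (κ * m x) *
      (m x * ce (pat S.A Z) D x) + n * ((r : ℝ) * (κ * m x)) at h2
    have h3 := hm0 x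
    have hq := hce0 x
    set q1 : ℝ := ce (pat S.A Z) D x with hq1
    set s2 : ℝ := ∑ y, (w S.A Z x y) ^ 2 with hs2
    set s1 : ℝ := ∑ y, w S.A Z x y with hs1
    have g1 : ρ * m x * s2 ≤ ρ * m x * ((k0 : ℝ) / (2 * ρ) * s1) +
        (m x * ((r : ℝ) ^ 2 * n * (1 / m x)) + m x * ((1 / κ) * (q1 * (1 / m x))) +
          m x * ((r : ℝ) * κ * n)) := by
      have e1 : ρ * m x * ((k0 : ℝ) / (2 * ρ) * s1) = (k0 : ℝ) / 2 * (m x * s1) := by
        field_simp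
      have e2 : m x * ((r : ℝ) ^ 2 * n * (1 / m x)) = n * (r : ℝ) ^ 2 := by
        field_simp
      have e3 : m x * ((1 / κ) * (q1 * (1 / m x))) = 1 / (κ * m x) * (m x * q1) := by
        field_simp
      rw [e1, e2, e3]
      linarith
    have g2 : 0 ≤ m x * ((r : ℝ) ^ 2 * n * (1 / m x)) + m x * ((1 / κ) * (q1 * (1 / m x))) +
          m x * ((r : ℝ) * κ * n) := by positivity
    have g3 : m x * ((r : ℝ) ^ 2 * n * (1 / m x)) + m x * ((1 / κ) * (q1 * (1 / m x))) +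
          m x * ((r : ℝ) * κ * n) ≤ ρ * (m x * ((r : ℝ) ^ 2 * n * (1 / m x)) +
          m x * ((1 / κ) * (q1 * (1 / m x))) + m x * ((r : ℝ) * κ * n)) :=
      le_mul_of_one_le_left g2 hρ1
    have h4 : (ρ * m x) * s2 ≤ (ρ * m x) * ((k0 : ℝ) / (2 * ρ) * s1 +
        (r : ℝ) ^ 2 * n * (1 / m x) + (1 / κ) * (q1 * (1 / m x)) + (r : ℝ) * κ * n) := by
      calc (ρ * m x) * s2 ≤ _ := g1
        _ ≤ ρ * m x * ((k0 : ℝ) / (2 * ρ) * s1) + ρ * (m x * ((r : ℝ) ^ 2 * n * (1 / m x)) +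
          m x * ((1 / κ) * (q1 * (1 / m x))) + m x * ((r : ℝ) * κ * n)) := by linarith
        _ = _ := by ring
    exact le_of_mul_le_mul_left h4 (by positivity)
  -- sum over `x`
  have h5 : ∑ x, l x * ∑ y, (w S.A Z x y) ^ 2 ≤ ∑ x, l x * (((k0 : ℝ) / (2 * ρ)) *
      ∑ y, w S.A Z x y + (r : ℝ) ^ 2 * n * (1 / m x) +
      (1 / κ) * (ce (pat S.A Z) D x * (1 / m x)) + (r : ℝ) * κ * n) :=
    sum_le_sum fun x _ => mul_le_mul_of_nonneg_left (h1 x) (hl0 x)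
  have h6 : ∑ x, l x * (((k0 : ℝ) / (2 * ρ)) * ∑ y, w S.A Z x y +
      (r : ℝ) ^ 2 * n * (1 / m x) + (1 / κ) * (ce (pat S.A Z) D x * (1 / m x)) +
      (r : ℝ) * κ * n) =
      ((k0 : ℝ) / (2 * ρ)) * ∑ x, l x * ∑ y, w S.A Z x y +
        (r : ℝ) ^ 2 * n * ∑ x, l x * (1 / m x) +
        (1 / κ) * ∑ x, ce (pat S.A Z) D x * (l x * (1 / m x)) +
        (r : ℝ) * κ * n * ∑ x, l x := by
    rw [mul_sum, mul_sum, mul_sum, mul_sum, ← sum_add_distrib, ← sum_add_distrib, ← sum_add_distrib]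
    apply sum_congr rfl
    intro x _
    ring
  have h7 : ∑ x, l x * (1 / m x) ≤ L * 2 ^ Z.card := by
    calc ∑ x, l x * (1 / m x) ≤ ∑ x, L * (1 / m x) :=
          sum_le_sum fun x _ => mul_le_mul_of_nonneg_right (hl1 x) (by have := hm0 x; positivity)
      _ = L * ∑ x, 1 / m x := by rw [mul_sum]
      _ = L * ((univ.image (pat S.A Z)).card : ℝ) := by rw [← sum_inv_card]
      _ ≤ _ := mul_le_mul_of_nonneg_left (card_pat_le S.A Z) hL
  have h8 : ∑ x, ce (pat S.A Z) D x * (l x * (1 / m x)) ≤ L * X := by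
    rw [sum_ce_mul (pat S.A Z) D (fun x => l x * (1 / m x))]
    · calc ∑ x, D x * (l x * (1 / m x)) ≤ ∑ x, L * (1 / m x * D x) := by
            apply sum_le_sum
            intro x _
            have h9 : 0 ≤ D x * (1 / m x) := mul_nonneg (hD0 x) (by have := hm0 x; positivity)
            calc D x * (l x * (1 / m x)) = l x * (D x * (1 / m x)) := by ring
              _ ≤ L * (D x * (1 / m x)) := mul_le_mul_of_nonneg_right (hl1 x) h9
              _ = L * (1 / m x * D x) := by ring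
        _ = L * ∑ x, 1 / m x * D x := by rw [mul_sum]
        _ ≤ L * X := mul_le_mul_of_nonneg_left hX hL
    · intro z z' h
      rw [hlc z z' h]
      simp only [hm, cel_congr h]
  have h10 : ∑ x, l x ≤ L * n := by
    calc ∑ x, l x ≤ ∑ _x : V, L := sum_le_sum fun x _ => hl1 x
      _ = L * n := by rw [sum_const, card_univ, nsmul_eq_mul, mul_comm]
  rw [h6] at h5
  rw [← hρ]
  refine h5.trans ?_
  have a1 := mul_le_mul_of_nonneg_left h7 (show 0 ≤ (r : ℝ) ^ 2 * n by positivity)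
  have a2 := mul_le_mul_of_nonneg_left h8 (show 0 ≤ 1 / κ by positivity)
  have a3 := mul_le_mul_of_nonneg_left h10 (show 0 ≤ (r : ℝ) * κ * n by positivity)
  have e : L * ((r : ℝ) ^ 2 * n * 2 ^ Z.card + r * κ * n ^ 2 + X / κ) =
      (r : ℝ) ^ 2 * n * (L * 2 ^ Z.card) + 1 / κ * (L * X) + (r : ℝ) * κ * n * (L * n) := by ring
  rw [e]
  linarith

end Pool.Agent.Helper89.SE
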